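import Mathlib

/-!
# Quadratic orders: sizes, reductions, independence of the elements of prime norm
-/

set_option autoImplicit false

namespace Pool.Agent.H38.ST

open QuadraticAlgebra

variable {a b : ℤ}

/-- the order `ℤ[ω]`, `ω² = a + b ω` -/
abbrev O (a b : ℤ) := QuadraticAlgebra ℤ a b

/-- the larger absolute value of the two coordinates -/
def sz (z : O a b) : ℕ := max z.re.natAbs z.im.natAbs

theorem re_le (z : O a b) : z.re.natAbs ≤ sz z := le_max_left _ _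
theorem im_le (z : O a b) : z.im.natAbs ≤ sz z := le_max_right _ _

/-- the constant of the size of products -/
def KK (a b : ℤ) : ℕ := 2 + a.natAbs + b.natAbs

theorem KK_pos (a b : ℤ) : 2 ≤ KK a b := by unfold KK; omega

theorem sz_one : sz (1 : O a b) = 1 := by
  unfold sz
  simp

theorem sz_mul (z w : O a b) : sz (z * w) ≤ KK a b * (sz z * sz w) := by
  have h1 := re_le z
  have h2 := im_le z
  have h3 := re_le w
  have h4 := im_le w
  have e1 : (z.re * w.re).natAbs ≤ sz z * sz w := by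
    rw [Int.natAbs_mul]; exact Nat.mul_le_mul h1 h3
  have e2 : (z.im * w.im).natAbs ≤ sz z * sz w := by
    rw [Int.natAbs_mul]; exact Nat.mul_le_mul h2 h4
  have e3 : (z.re * w.im).natAbs ≤ sz z * sz w := by
    rw [Int.natAbs_mul]; exact Nat.mul_le_mul h1 h4
  have e4 : (z.im * w.re).natAbs ≤ sz z * sz w := by
    rw [Int.natAbs_mul]; exact Nat.mul_le_mul h2 h3
  have e5 : (a * (z.im * w.im)).natAbs ≤ a.natAbs * (sz z * sz w) := by
    rw [Int.natAbs_mul]; exact Nat.mul_le_mul le_rfl e2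
  have e6 : (b * (z.im * w.im)).natAbs ≤ b.natAbs * (sz z * sz w) := by
    rw [Int.natAbs_mul]; exact Nat.mul_le_mul le_rfl e2
  have r1 : (z * w).re = z.re * w.re + a * (z.im * w.im) := by
    rw [re_mul]; ring
  have r2 : (z * w).im = z.re * w.im + z.im * w.re + b * (z.im * w.im) := by
    rw [im_mul]; ring
  have hK : KK a b * (sz z * sz w) = 2 * (sz z * sz w) + a.natAbs * (sz z * sz w) +
      b.natAbs * (sz z * sz w) := by unfold KK; ring
  rw [hK]
  show max (z * w).re.natAbs (z * w).im.natAbs ≤ _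
  rw [r1, r2]
  refine max_le ?_ ?_
  · refine (Int.natAbs_add_le _ _).trans ?_
    omega
  · refine (Int.natAbs_add_le _ _).trans ?_
    have := Int.natAbs_add_le (z.re * w.im) (z.im * w.re)
    omega

theorem sz_star (z : O a b) : sz (star z) ≤ KK a b * sz z := by
  have h1 := re_le z
  have h2 := im_le z
  have e1 : (b * z.im).natAbs ≤ b.natAbs * sz z := by
    rw [Int.natAbs_mul]; exact Nat.mul_le_mul le_rfl h2
  have r1 : (star z).re = z.re + b * z.im := by rw [re_star]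
  have r2 : (star z).im = -z.im := by rw [im_star]
  have hK : KK a b * sz z = 2 * sz z + a.natAbs * sz z + b.natAbs * sz z := by unfold KK; ring
  rw [hK]
  show max (star z).re.natAbs (star z).im.natAbs ≤ _
  rw [r1, r2]
  refine max_le ?_ ?_
  · refine (Int.natAbs_add_le _ _).trans ?_
    omega
  · rw [Int.natAbs_neg]
    omega

theorem sz_pow (z : O a b) (n : ℕ) : sz (z ^ n) ≤ (KK a b * sz z) ^ n := by
  induction n with
  | zero => rw [pow_zero, pow_zero, sz_one]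
  | succ n ih =>
    rw [pow_succ, pow_succ]
    refine (sz_mul _ _).trans ?_
    calc KK a b * (sz (z ^ n) * sz z) = sz (z ^ n) * (KK a b * sz z) := by ring
      _ ≤ _ := Nat.mul_le_mul ih le_rfl

theorem sz_prod {ι : Type*} (s : Finset ι) (f : ι → O a b) (e : ι → ℕ) :
    sz (∏ i ∈ s, f i ^ e i) ≤ ∏ i ∈ s, (KK a b * (KK a b * sz (f i)) ^ e i) := by
  classical
  induction s using Finset.induction_on with
  | empty => simp [sz_one]
  | insert i s hi ih =>
    rw [Finset.prod_insert hi, Finset.prod_insert hi]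
    refine (sz_mul _ _).trans ?_
    calc KK a b * (sz (f i ^ e i) * sz (∏ i ∈ s, f i ^ e i))
        = (KK a b * sz (f i ^ e i)) * sz (∏ i ∈ s, f i ^ e i) := by ring
      _ ≤ _ := Nat.mul_le_mul (Nat.mul_le_mul le_rfl (sz_pow _ _)) ih

/-- the reduction `ω ↦ ρ` -/
noncomputable def red {R : Type*} [CommRing R] (ρ : R) (h : ρ * ρ = (a : R) + b * ρ) :
    O a b →+* R :=
  (QuadraticAlgebra.lift (R := ℤ) (A := R) (a := a) (b := b)
    ⟨ρ, by rw [h]; simp⟩ : O a b →ₐ[ℤ] R).toRingHom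

theorem red_apply {R : Type*} [CommRing R] (ρ : R) (h : ρ * ρ = (a : R) + b * ρ) (z : O a b) :
    red ρ h z = (z.re : R) + z.im * ρ := by
  unfold red
  have : z = (z.re : O a b) + (z.im : O a b) * ω := by
    ext <;> simp
  conv_lhs => rw [this]
  simp [QuadraticAlgebra.lift]

theorem conj_root {R : Type*} [CommRing R] {ρ : R} (h : ρ * ρ = (a : R) + b * ρ) :
    ((b : R) - ρ) * ((b : R) - ρ) = (a : R) + b * ((b : R) - ρ) := by
  linear_combination h

theorem red_mul_red {R : Type*} [CommRing R] (ρ : R) (h : ρ * ρ = (a : R) + b * ρ) (z : O a b) :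
    red ρ h z * red ((b : R) - ρ) (conj_root h) z = ((norm z : ℤ) : R) := by
  rw [red_apply, red_apply, norm_def]
  push_cast
  linear_combination (-(z.im : R) ^ 2) * h

theorem red_star {R : Type*} [CommRing R] (ρ : R) (h : ρ * ρ = (a : R) + b * ρ) (z : O a b) :
    red ρ h (star z) = red ((b : R) - ρ) (conj_root h) z := by
  rw [red_apply, red_apply, re_star, im_star]
  push_cast
  ring

/-- an element of norm `p w`, `|w| ≤ W`, for a split prime `p > W` -/
structure Elt (W p : ℕ) (ξ : O a b) : Prop where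
  prime : p.Prime
  large : W < p
  disc : ¬ (p : ℤ) ∣ b ^ 2 + 4 * a
  norm_eq : ∃ w : ℤ, norm ξ = p * w ∧ w ≠ 0 ∧ w.natAbs ≤ W
  root : ∃ ρ : ZMod p, ρ * ρ = (a : ZMod p) + b * ρ ∧ (ξ.re : ZMod p) + ξ.im * ρ = 0

theorem not_dvd_w {W p : ℕ} (hWp : W < p) {w : ℤ} (h0 : w ≠ 0) (hw : w.natAbs ≤ W) :
    ¬ (p : ℤ) ∣ w := by
  intro h
  have h1 := Int.natCast_dvd.1 h
  have h2 := Nat.le_of_dvd (Int.natAbs_pos.2 h0) h1
  omega

theorem Elt.norm_ne {W p : ℕ} {ξ : O a b} (h : Elt W p ξ) : norm ξ ≠ 0 := by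
  obtain ⟨w, h1, h2, h3⟩ := h.norm_eq
  rw [h1]
  exact mul_ne_zero (by exact_mod_cast h.prime.ne_zero) h2

/-- a prime that divides the norm is `p` or at most `W` -/
theorem Elt.dvd_norm {W p : ℕ} {ξ : O a b} (h : Elt W p ξ) {r : ℕ} (hr : r.Prime)
    (hd : (r : ℤ) ∣ norm ξ) : r = p ∨ r ≤ W := by
  obtain ⟨w, h1, h2, h3⟩ := h.norm_eq
  rw [h1] at hd
  rcases (Nat.prime_iff_prime_int.1 hr).dvd_or_dvd hd with h4 | h4
  · left
    have := Int.natCast_dvd_natCast.1 h4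
    exact (Nat.prime_dvd_prime_iff_eq hr h.prime).1 this
  · right
    have h5 := Int.natCast_dvd.1 h4
    exact (Nat.le_of_dvd (Int.natAbs_pos.2 h2) h5).trans h3

theorem dvd_norm_prod {W : ℕ} {P : Finset ℕ} {ξ : ℕ → O a b} (hP : ∀ p ∈ P, Elt W p (ξ p))
    (e : ℕ → ℕ) {r : ℕ} (hr : r.Prime) (hd : (r : ℤ) ∣ norm (∏ p ∈ P, ξ p ^ e p)) :
    r ∈ P ∨ r ≤ W := by
  rw [map_prod] at hd
  obtain ⟨p, hp, h1⟩ := (Prime.dvd_finsetProd_iff (Nat.prime_iff_prime_int.1 hr) _).1 hd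
  rw [map_pow] at h1
  rcases (hP p hp).dvd_norm hr ((Nat.prime_iff_prime_int.1 hr).dvd_of_dvd_pow h1) with h | h
  · left
    rw [h]
    exact hp
  · exact Or.inr h

theorem norm_prod_ne {W : ℕ} {P : Finset ℕ} {ξ : ℕ → O a b} (hP : ∀ p ∈ P, Elt W p (ξ p))
    (e : ℕ → ℕ) : norm (∏ p ∈ P, ξ p ^ e p) ≠ 0 := by
  rw [map_prod]
  refine Finset.prod_ne_zero_iff.2 fun p hp => ?_
  rw [map_pow]
  exact pow_ne_zero _ (hP p hp).norm_ne

theorem norm_smul (z : O a b) (n : ℤ) (k : O a b) (h : z = (n : O a b) * k) : z.im = n * k.im := by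
  rw [h, im_mul]
  simp

theorem indep_aux {W : ℕ} {P : Finset ℕ} {ξ : ℕ → O a b} (hP : ∀ p ∈ P, Elt W p (ξ p))
    (e f : ℕ → ℕ) (h : ((∏ p ∈ P, ξ p ^ e p) * star (∏ p ∈ P, ξ p ^ f p)).im = 0) (p : ℕ)
    (hp : p ∈ P) : ¬ f p < e p := by
  intro hlt
  have hE := hP p hp
  have hpp := hE.prime
  have : Fact p.Prime := ⟨hpp⟩
  obtain ⟨ρ, hρ, hρ0⟩ := hE.root
  obtain ⟨w, hw1, hw2, hw3⟩ := hE.norm_eq
  obtain ⟨d, hd⟩ : ∃ d, e p = f p + (d + 1) := ⟨e p - f p - 1, by omega⟩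
  obtain ⟨R, hR⟩ : ∃ R : O a b, R = ∏ q ∈ P.erase p, ξ q ^ e q := ⟨_, rfl⟩
  obtain ⟨S, hS⟩ : ∃ S : O a b, S = ∏ q ∈ P.erase p, ξ q ^ f q := ⟨_, rfl⟩
  have e1 : ∏ p ∈ P, ξ p ^ e p = ξ p ^ e p * R := by
    rw [hR, Finset.mul_prod_erase P (fun q => ξ q ^ e q) hp]
  have e2 : ∏ p ∈ P, ξ p ^ f p = ξ p ^ f p * S := by
    rw [hS, Finset.mul_prod_erase P (fun q => ξ q ^ f q) hp]
  obtain ⟨Y, hY⟩ : ∃ Y : O a b, Y = ξ p ^ (d + 1) * (R * star S) := ⟨_, rfl⟩
  have e3 : (∏ p ∈ P, ξ p ^ e p) * star (∏ p ∈ P, ξ p ^ f p) =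
      (((norm (ξ p)) ^ f p : ℤ) : O a b) * Y := by
    have h1 : ((norm (ξ p) : ℤ) : O a b) = ξ p * star (ξ p) := by
      have := algebraMap_norm_eq_mul_star (ξ p)
      rw [← this]
      rfl
    rw [e1, e2, hY, hd, star_mul, star_pow]
    push_cast
    rw [h1]
    ring
  have h1 := norm_smul _ _ _ e3
  rw [h] at h1
  have hYim : Y.im = 0 := by
    rcases mul_eq_zero.1 h1.symm with h2 | h2
    · exact absurd h2 (pow_ne_zero _ hE.norm_ne)
    · exact h2
  have hYe : Y = (Y.re : O a b) := by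
    ext
    · simp
    · simp [hYim]
  have hφ : red ρ hρ (ξ p) = 0 := by rw [red_apply]; exact hρ0
  have h2 : red ρ hρ Y = 0 := by
    rw [hY, map_mul, map_pow, hφ]
    simp
  have h3 : ((Y.re : ℤ) : ZMod p) = 0 := by
    rw [red_apply, hYim] at h2
    simpa using h2
  have h4 : red ((b : ZMod p) - ρ) (conj_root hρ) Y = 0 := by
    rw [red_apply, hYim]
    simpa using h3
  have hnn : ∀ q ∈ P.erase p, ((norm (ξ q) : ℤ) : ZMod p) ≠ 0 := by
    intro q hq hcon
    have hq1 := Finset.mem_erase.1 hq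
    have h5 := (ZMod.intCast_zmod_eq_zero_iff_dvd _ p).1 hcon
    rcases (hP q hq1.2).dvd_norm hpp h5 with h6 | h6
    · exact hq1.1 h6.symm
    · have := hE.large
      omega
  rw [hY, map_mul, map_mul] at h4
  rcases mul_eq_zero.1 h4 with h5 | h5
  · -- the conjugate reduction of `ξ p`
    rw [map_pow] at h5
    have h6 := pow_eq_zero_iff (by omega) |>.1 h5
    rw [red_apply] at h6
    have h7 : ((ξ p).im : ZMod p) * (2 * ρ - b) = 0 := by linear_combination hρ0 - h6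
    have h8 : (2 * ρ - (b : ZMod p)) ≠ 0 := by
      intro h8
      apply hE.disc
      have h9 : (((b ^ 2 + 4 * a : ℤ)) : ZMod p) = 0 := by
        push_cast
        linear_combination (2 * ρ - (b : ZMod p)) * h8 - 4 * hρ
      exact (ZMod.intCast_zmod_eq_zero_iff_dvd _ p).1 h9
    have h9 : ((ξ p).im : ZMod p) = 0 := (mul_eq_zero.1 h7).resolve_right h8
    have h10 : ((ξ p).re : ZMod p) = 0 := by
      rw [h9] at hρ0
      simpa using hρ0
    obtain ⟨s, hs⟩ := (ZMod.intCast_zmod_eq_zero_iff_dvd _ p).1 h9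
    obtain ⟨t, ht⟩ := (ZMod.intCast_zmod_eq_zero_iff_dvd _ p).1 h10
    apply not_dvd_w hE.large hw2 hw3
    refine ⟨t * t + b * t * s - a * s * s, ?_⟩
    have hp0 : (p : ℤ) ≠ 0 := by exact_mod_cast hpp.ne_zero
    apply mul_left_cancel₀ hp0
    rw [← hw1, norm_def, hs, ht]
    ring
  · rcases mul_eq_zero.1 h5 with h6 | h6
    · rw [hR, map_prod] at h6
      obtain ⟨q, hq, h7⟩ := Finset.prod_eq_zero_iff.1 h6
      rw [map_pow] at h7
      have h8 := eq_zero_of_pow_eq_zero h7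
      apply hnn q hq
      rw [← red_mul_red ρ hρ, h8, mul_zero]
    · rw [hS, star_prod, map_prod] at h6
      obtain ⟨q, hq, h7⟩ := Finset.prod_eq_zero_iff.1 h6
      rw [star_pow, map_pow] at h7
      have h8 := eq_zero_of_pow_eq_zero h7
      rw [red_star] at h8
      apply hnn q hq
      have h9 : ∀ (σ τ : ZMod p) (hσ : σ * σ = (a : ZMod p) + b * σ) (hτ : τ * τ = (a : ZMod p) + b * τ),
          σ = τ → ∀ z : O a b, red σ hσ z = red τ hτ z := by
        intro σ τ hσ hτ hst z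
        subst hst
        rfl
      rw [h9 _ ρ _ hρ (by ring)] at h8
      rw [← red_mul_red ρ hρ, h8, zero_mul]

theorem indep {W : ℕ} {P : Finset ℕ} {ξ : ℕ → O a b} (hP : ∀ p ∈ P, Elt W p (ξ p))
    (e f : ℕ → ℕ) (h : ((∏ p ∈ P, ξ p ^ e p) * star (∏ p ∈ P, ξ p ^ f p)).im = 0) (p : ℕ)
    (hp : p ∈ P) : e p = f p := by
  have h1 := indep_aux hP e f h p hp
  have h2 : ((∏ p ∈ P, ξ p ^ f p) * star (∏ p ∈ P, ξ p ^ e p)).im = 0 := by
    have e1 : (∏ p ∈ P, ξ p ^ f p) * star (∏ p ∈ P, ξ p ^ e p) =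
        star ((∏ p ∈ P, ξ p ^ e p) * star (∏ p ∈ P, ξ p ^ f p)) := by
      rw [star_mul, star_star]
    rw [e1, im_star, h, neg_zero]
  have h3 := indep_aux hP f e h2 p hp
  omega

end Pool.Agent.H38.ST
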