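import Pool.Agent.H38.ST.Alg

/-!
# Elements of norm `p w` with bounded `w` for the primes `p = 1` modulo `4 |D|`
-/

set_option autoImplicit false

namespace Pool.Agent.H38.ST

open QuadraticAlgebra Finset

variable {a b : ℤ}

/-- Thue's lemma -/
theorem thue {p : ℕ} (hp : p.Prime) (ρ : ZMod p) :
    ∃ u v : ℤ, (u ≠ 0 ∨ v ≠ 0) ∧ u.natAbs ≤ Nat.sqrt p ∧ v.natAbs ≤ Nat.sqrt p ∧
      (u : ZMod p) + v * ρ = 0 := by
  classical
  have : NeZero p := ⟨hp.ne_zero⟩
  obtain ⟨s, hs⟩ : ∃ s, s = Nat.sqrt p := ⟨_, rfl⟩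
  have h1 : p < (s + 1) * (s + 1) := by
    rw [hs]
    exact Nat.lt_succ_sqrt p
  have h2 : (univ : Finset (ZMod p)).card < (range (s + 1) ×ˢ range (s + 1)).card := by
    rw [card_univ, ZMod.card, card_product, card_range]
    exact h1
  obtain ⟨x, hx, y, hy, hne, he⟩ := Finset.exists_ne_map_eq_of_card_lt_of_maps_to
    (t := (univ : Finset (ZMod p))) h2
    (f := fun x : ℕ × ℕ => ((x.1 : ℕ) : ZMod p) + (x.2 : ℕ) * ρ) (fun _ _ => mem_univ _)
  rw [mem_product, mem_range, mem_range] at hx hy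
  refine ⟨(x.1 : ℤ) - y.1, (x.2 : ℤ) - y.2, ?_, ?_, ?_, ?_⟩
  · by_contra hcon
    push Not at hcon
    apply hne
    ext
    · omega
    · omega
  · omega
  · omega
  · push_cast
    linear_combination he

theorem exists_elt (a b : ℤ) (hD : b ^ 2 + 4 * a ≠ 0) :
    ∃ W K0 : ℕ, 1 ≤ W ∧ 1 ≤ K0 ∧ ∀ p : ℕ, p.Prime → W < p →
      p % (4 * (b ^ 2 + 4 * a).natAbs) = 1 → ∃ ξ : O a b, Elt W p ξ ∧ sz ξ ≤ K0 * p := by
  classical
  have hD1 : 1 ≤ (b ^ 2 + 4 * a).natAbs := Nat.one_le_iff_ne_zero.2 (by omega)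
  obtain ⟨D, hDe⟩ : ∃ D : ℤ, D = b ^ 2 + 4 * a := ⟨_, rfl⟩
  rw [← hDe] at hD hD1 ⊢
  have hdisc : ∀ p : ℕ, p.Prime → p % (4 * D.natAbs) = 1 → ¬ (p : ℤ) ∣ b ^ 2 + 4 * a := by
    intro p hp hmod h
    rw [← hDe] at h
    have h1 := Nat.le_of_dvd (by omega) (Int.natCast_dvd.1 h)
    have h2 : p = 1 ∨ 4 * D.natAbs < p := by
      by_contra hcon
      push Not at hcon
      rcases Nat.lt_or_ge p (4 * D.natAbs) with h3 | h3
      · rw [Nat.mod_eq_of_lt h3] at hmod
        exact hcon.1 hmod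
      · have h4 : p = 4 * D.natAbs := le_antisymm hcon.2 h3
        rw [h4, Nat.mod_self] at hmod
        omega
    rcases h2 with h2 | h2
    · exact hp.one_lt.ne' h2
    · omega
  by_cases hsq : IsSquare D
  · -- split algebra
    obtain ⟨d, hd⟩ := hsq
    have hd0 : d ≠ 0 := by
      rintro rfl
      apply hD
      rw [hd]
      ring
    obtain ⟨r, hr⟩ : ∃ r : ℤ, 2 * r = b + d := by
      have h1 : (b + d) * (b - d) = 4 * (-a) := by
        have : b ^ 2 + 4 * a = d * d := by rw [← hDe, hd]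
        linear_combination this
      have h2 : Even ((b + d) * (b - d)) := by
        rw [h1]
        exact ⟨2 * (-a), by ring⟩
      rcases Int.even_mul.1 h2 with h3 | h3
      · obtain ⟨r, hr⟩ := h3
        exact ⟨r, by omega⟩
      · obtain ⟨r, hr⟩ := h3
        exact ⟨r + d, by omega⟩
    have hra : r * r = a + b * r := by
      have h1 : b ^ 2 + 4 * a = d * d := by rw [← hDe, hd]
      have h2 : d = 2 * r - b := by omega
      rw [h2] at h1
      linarith
    refine ⟨1, 1 + r.natAbs, le_rfl, by omega, fun p hp hWp hmod => ?_⟩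
    obtain ⟨v, hv⟩ : ∃ v : ℤ, (p : ℤ) - 1 = d * v := by
      have h1 : ((4 * D.natAbs : ℕ) : ℤ) ∣ (p : ℤ) - 1 := by
        have h2 : (1 : ℕ) ≡ p [MOD 4 * D.natAbs] := by
          unfold Nat.ModEq
          rw [hmod]
          exact Nat.mod_eq_of_lt (by omega)
        exact h2.dvd
      have h2 : d ∣ ((4 * D.natAbs : ℕ) : ℤ) := by
        push_cast
        have : d ∣ |D| := by
          rw [dvd_abs, hd]
          exact dvd_mul_right _ _
        exact this.mul_left 4
      exact h2.trans h1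
    refine ⟨⟨(p : ℤ) - r * v, v⟩, ⟨hp, hWp, hdisc p hp hmod, ⟨1, ?_, one_ne_zero, le_rfl⟩,
      ⟨(r : ZMod p), ?_, ?_⟩⟩, ?_⟩
    · rw [norm_def]
      show ((p : ℤ) - r * v) * ((p : ℤ) - r * v) + b * ((p : ℤ) - r * v) * v - a * v * v = p * 1
      have h2 : b = 2 * r - d := by omega
      have h3 : a = r * r - b * r := by linarith
      rw [h3, h2]
      have h4 : (p : ℤ) = d * v + 1 := by linarith
      rw [h4]
      ring
    · have := congrArg (fun t : ℤ => (t : ZMod p)) hra
      push_cast at this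
      exact this
    · show (((p : ℤ) - r * v : ℤ) : ZMod p) + (v : ZMod p) * (r : ZMod p) = 0
      push_cast
      rw [ZMod.natCast_self]
      ring
    · have hv1 : v.natAbs ≤ p := by
        have h1 : ((p : ℤ) - 1).natAbs = d.natAbs * v.natAbs := by rw [hv, Int.natAbs_mul]
        have h2 : 1 ≤ d.natAbs := Nat.one_le_iff_ne_zero.2 (by omega)
        have h3 : ((p : ℤ) - 1).natAbs ≤ p := by
          have := hp.one_lt
          omega
        nlinarith
      unfold sz
      show max ((p : ℤ) - r * v).natAbs v.natAbs ≤ _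
      refine max_le ?_ ?_
      · have h1 : ((p : ℤ) - r * v).natAbs ≤ (p : ℤ).natAbs + (r * v).natAbs := by omega
        rw [Int.natAbs_mul, Int.natAbs_natCast] at h1
        refine h1.trans ?_
        have := Nat.mul_le_mul (le_refl r.natAbs) hv1
        linarith
      · refine hv1.trans ?_
        rw [add_mul, one_mul]
        exact Nat.le_add_right _ _
  · -- the order of a quadratic field
    refine ⟨1 + b.natAbs + a.natAbs, 1, by omega, le_rfl, fun p hp hWp hmod => ?_⟩
    have : Fact p.Prime := ⟨hp⟩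
    have hdp := hdisc p hp hmod
    have hp2 : p ≠ 2 := by
      rintro rfl
      have h1 : 2 < 4 * D.natAbs := by omega
      rw [Nat.mod_eq_of_lt h1] at hmod
      omega
    have hodd : Odd p := hp.odd_of_ne_two hp2
    have hJ : jacobiSym D p = 1 := by
      rw [jacobiSym.mod_right D hodd, hmod]
      simp
    have hL : legendreSym p D = 1 := by
      rw [jacobiSym.legendreSym.to_jacobiSym]
      exact hJ
    have hD0 : ((D : ℤ) : ZMod p) ≠ 0 := by
      intro h
      apply hdp
      rw [← hDe]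
      exact (ZMod.intCast_zmod_eq_zero_iff_dvd _ p).1 h
    obtain ⟨s, hs⟩ := (legendreSym.eq_one_iff p hD0).1 hL
    have h2 : (2 : ZMod p) ≠ 0 := by
      intro h
      have h3 : ((2 : ℕ) : ZMod p) = 0 := by exact_mod_cast h
      rw [ZMod.natCast_eq_zero_iff] at h3
      exact hp2 ((Nat.prime_dvd_prime_iff_eq hp Nat.prime_two).1 h3)
    obtain ⟨ρ, hρ⟩ : ∃ ρ : ZMod p, ρ = ((b : ZMod p) + s) / 2 := ⟨_, rfl⟩
    have hρ2 : 2 * ρ = (b : ZMod p) + s := by
      rw [hρ]
      field_simp
    have hroot : ρ * ρ = (a : ZMod p) + b * ρ := by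
      have h4 : (2 : ZMod p) * 2 ≠ 0 := mul_ne_zero h2 h2
      apply mul_left_cancel₀ h4
      rw [hDe] at hs
      push_cast at hs
      linear_combination (2 * ρ + s - b) * hρ2 - hs
    obtain ⟨u, v, huv, hu, hv, h0⟩ := thue hp ρ
    have hsq2 : Nat.sqrt p * Nat.sqrt p ≤ p := Nat.sqrt_le p
    obtain ⟨t, ht⟩ : ∃ t, t = Nat.sqrt p := ⟨_, rfl⟩
    rw [← ht] at hu hv hsq2
    have hN : norm (⟨u, v⟩ : O a b) = u * u + b * u * v - a * v * v := by
      rw [norm_def]
    have hNp : (p : ℤ) ∣ norm (⟨u, v⟩ : O a b) := by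
      rw [← ZMod.intCast_zmod_eq_zero_iff_dvd _ p, ← red_mul_red ρ hroot, red_apply]
      show ((u : ZMod p) + v * ρ) * _ = 0
      rw [h0, zero_mul]
    have hN0 : norm (⟨u, v⟩ : O a b) ≠ 0 := by
      intro h
      rw [hN] at h
      have h5 : (2 * u + b * v) * (2 * u + b * v) = D * (v * v) := by
        rw [hDe]
        linear_combination 4 * h
      by_cases hv0 : v = 0
      · rw [hv0] at h5
        have h6 : u * u = 0 := by nlinarith
        have h7 : u = 0 := by
          rcases mul_eq_zero.1 h6 with h | h <;> exact h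
        rcases huv with h8 | h8
        · exact h8 h7
        · exact h8 hv0
      · apply hsq
        have h6 : v ^ 2 ∣ (2 * u + b * v) ^ 2 := ⟨D, by linear_combination h5⟩
        obtain ⟨c, hc⟩ := (Int.pow_dvd_pow_iff two_ne_zero).1 h6
        refine ⟨c, ?_⟩
        have h7 : v * v ≠ 0 := mul_ne_zero hv0 hv0
        apply mul_right_cancel₀ h7
        rw [← h5, hc]
        ring
    obtain ⟨w, hw⟩ := hNp
    have hw0 : w ≠ 0 := by
      rintro rfl
      apply hN0
      rw [hw, mul_zero]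
    refine ⟨⟨u, v⟩, ⟨hp, hWp, hdp, ⟨w, hw, hw0, ?_⟩, ⟨ρ, hroot, h0⟩⟩, ?_⟩
    · have h5 : (p : ℤ).natAbs * w.natAbs ≤ (1 + b.natAbs + a.natAbs) * (t * t) := by
        rw [← Int.natAbs_mul, ← hw, hN]
        have e1 : (u * u).natAbs ≤ t * t := by
          rw [Int.natAbs_mul]; exact Nat.mul_le_mul hu hu
        have e2 : (b * u * v).natAbs ≤ b.natAbs * (t * t) := by
          rw [mul_assoc, Int.natAbs_mul, Int.natAbs_mul]
          exact Nat.mul_le_mul le_rfl (Nat.mul_le_mul hu hv)
        have e3 : (a * v * v).natAbs ≤ a.natAbs * (t * t) := by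
          rw [mul_assoc, Int.natAbs_mul, Int.natAbs_mul]
          exact Nat.mul_le_mul le_rfl (Nat.mul_le_mul hv hv)
        have e4 : (u * u + b * u * v - a * v * v).natAbs ≤
            (u * u).natAbs + (b * u * v).natAbs + (a * v * v).natAbs := by omega
        calc _ ≤ _ := e4
          _ ≤ t * t + b.natAbs * (t * t) + a.natAbs * (t * t) := by omega
          _ = _ := by ring
      rw [Int.natAbs_natCast] at h5
      have h6 : p * w.natAbs ≤ p * (1 + b.natAbs + a.natAbs) := by
        refine h5.trans ?_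
        rw [mul_comm p]
        exact Nat.mul_le_mul le_rfl hsq2
      exact Nat.le_of_mul_le_mul_left h6 hp.pos
    · rw [one_mul]
      have h5 : t ≤ p := by
        have : t ≤ t * t := Nat.le_mul_self t
        omega
      exact max_le (hu.trans h5) (hv.trans h5)

end Pool.Agent.H38.ST
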