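import Pool.Agent.H38.ST.Pt
import Pool.Agent.H38.ST.S8.TH869.EVF.AP

/-!
# The points, at the level of the primes
-/

set_option autoImplicit false

namespace Pool.Agent.H38.ST

open QuadraticAlgebra Finset Filter Topology

/-- the properties of the coprime pairs -/
def IsPt (A B C : ℤ) (s : ℤ × ℤ) : Prop :=
  IsCoprime s.1 s.2 ∧ 0 < s.2 ∧ qf A B C s.1 s.2 ≠ 0

/-- `m` is divisible by all the primes that divide `y Q(x, y)` -/
def RadDvd (A B C : ℤ) (s : ℤ × ℤ) (m : ℕ) : Prop :=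
  0 < m ∧ ∀ r : ℕ, r.Prime → (r : ℤ) ∣ s.2 * qf A B C s.1 s.2 → r ∣ m

theorem log_div_tendsto (M : ℝ) : ∀ᶠ x : ℝ in atTop, M * Real.log x ≤ x := by
  have h := Real.isLittleO_log_id_atTop
  have h1 := h.bound (show (0 : ℝ) < 1 / (|M| + 1) by positivity)
  filter_upwards [h1, eventually_ge_atTop (1 : ℝ)] with x hx hx1
  have hl : 0 ≤ Real.log x := Real.log_nonneg hx1
  rw [Real.norm_of_nonneg hl, id, Real.norm_of_nonneg (by linarith)] at hx
  have hM : 0 < |M| + 1 := by positivity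
  have h2 : (|M| + 1) * Real.log x ≤ x := by
    calc (|M| + 1) * Real.log x ≤ (|M| + 1) * (1 / (|M| + 1) * x) :=
          mul_le_mul_of_nonneg_left hx hM.le
      _ = x := by field_simp
  have h3 : M * Real.log x ≤ (|M| + 1) * Real.log x :=
    mul_le_mul_of_nonneg_right (by linarith [le_abs_self M]) hl
  linarith

theorem level (A B C : ℤ) (hA : A ≠ 0) (hD : B ^ 2 - 4 * A * C ≠ 0) :
    ∃ κ C2 : ℝ, 0 < κ ∧ κ ≤ 1 / 8 ∧ 0 < C2 ∧ ∃ T0 : ℕ, ∀ T : ℕ, T0 ≤ T → ∀ n : ℕ, 2 ≤ n →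
      (n : ℝ) * Real.log T ≤ κ * T → ∃ S : Finset (ℤ × ℤ), 2 ^ (n - 2) ≤ S.card ∧
        ∀ s ∈ S, IsPt A B C s ∧ (s.1.natAbs : ℝ) ≤ Real.exp (3 * (T : ℝ) ^ 2) ∧
          (s.2.natAbs : ℝ) ≤ Real.exp (3 * (T : ℝ) ^ 2) ∧
          ∃ m : ℕ, RadDvd A B C s m ∧ (m : ℝ) * 2 ^ n ≤ C2 * s.2.natAbs := by
  classical
  have hD' : B ^ 2 + 4 * (-(A * C)) ≠ 0 := by
    intro h
    apply hD
    linear_combination h
  obtain ⟨W, K0, hW, hK0, hel⟩ := exists_elt (-(A * C)) B hD'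
  obtain ⟨l, hl1, hl⟩ := Nat.exists_infinite_primes (W + A.natAbs + 1)
  obtain ⟨M0, hM0⟩ : ∃ M0 : ℕ, M0 = 4 * (B ^ 2 + 4 * (-(A * C))).natAbs := ⟨_, rfl⟩
  rw [← hM0] at hel
  have hM04 : 4 ≤ M0 := by
    have : 1 ≤ (B ^ 2 + 4 * (-(A * C))).natAbs := Nat.one_le_iff_ne_zero.2 (by omega)
    omega
  have hPA := Pool.Agent.TH869.EVF.PA_eventually M0 1 (by omega) (by simp)
  obtain ⟨κ0, hκ0⟩ : ∃ κ0 : ℝ, κ0 = (M0.totient : ℝ)⁻¹ / 4 := ⟨_, rfl⟩
  rw [← hκ0] at hPA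
  have htot : 1 ≤ M0.totient := Nat.totient_pos.2 (by omega)
  have htotR : (1 : ℝ) ≤ M0.totient := by exact_mod_cast htot
  have hκ0pos : 0 < κ0 := by rw [hκ0]; positivity
  have hκ0le : κ0 ≤ 1 / 4 := by
    rw [hκ0]
    have : (M0.totient : ℝ)⁻¹ ≤ 1 := inv_le_one_of_one_le₀ htotR
    linarith
  obtain ⟨W', hW'⟩ : ∃ W' : ℕ, W' = W + l := ⟨_, rfl⟩
  obtain ⟨K1, hK1⟩ : ∃ K1 : ℕ, K1 = KK (-(A * C)) B * K0 := ⟨_, rfl⟩
  have hKK := KK_pos (-(A * C)) B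
  have hK11 : 1 ≤ K1 := by rw [hK1]; exact Nat.mul_pos (by omega) hK0
  obtain ⟨C2, hC2⟩ : ∃ C2 : ℝ, C2 = ((l * l * A.natAbs * W.factorial : ℕ) : ℝ) := ⟨_, rfl⟩
  have hA1 : 1 ≤ A.natAbs := Nat.one_le_iff_ne_zero.2 (by omega)
  have hC2pos : 0 < C2 := by
    rw [hC2]
    have h11 := hl.pos
    have h12 := W.factorial_pos
    have : 0 < l * l * A.natAbs * W.factorial := by positivity
    exact_mod_cast this
  have hE2 : ∀ᶠ x : ℝ in atTop, ((W' : ℝ) + 1) * Real.log x ≤ κ0 / 2 * x := by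
    filter_upwards [log_div_tendsto (((W' : ℝ) + 1) / (κ0 / 2))] with x hx
    have h1 : ((W' : ℝ) + 1) * Real.log x = κ0 / 2 * (((W' : ℝ) + 1) / (κ0 / 2) * Real.log x) := by
      field_simp
    rw [h1]
    exact mul_le_mul_of_nonneg_left hx (by positivity)
  have hall : ∀ᶠ x : ℝ in atTop, (κ0 * x ≤ ((Pool.Agent.TH869.EVF.PA M0 1 x).card : ℝ) * Real.log x ∧
      ((W' : ℝ) + 1) * Real.log x ≤ κ0 / 2 * x) ∧ ((K1 : ℝ) ≤ x ∧ 3 ≤ x) ∧
      (4 * Real.log x ≤ x ∧ 2 * Real.log A.natAbs ≤ x) := by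
    filter_upwards [hPA, hE2, eventually_ge_atTop (K1 : ℝ), eventually_ge_atTop (3 : ℝ),
      log_div_tendsto 4, eventually_ge_atTop (2 * Real.log A.natAbs)] with x h1 h2 h3 h4 h5 h6
    exact ⟨⟨h1, h2⟩, ⟨h3, h4⟩, h5, h6⟩
  obtain ⟨T0, hT0⟩ := eventually_atTop.1 (tendsto_natCast_atTop_atTop.eventually hall)
  refine ⟨κ0 / 2, C2, by positivity, by linarith, hC2pos, T0, fun T hT n hn hnT => ?_⟩
  obtain ⟨⟨t1, t2⟩, ⟨t3, t4⟩, t5, t6⟩ := hT0 T hT
  have hTpos : 0 < T := by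
    have : (0 : ℝ) < T := by linarith
    exact_mod_cast this
  have hTR : (0 : ℝ) < T := by linarith
  have hlogT : 0 < Real.log T := Real.log_pos (by linarith)
  -- the primes
  obtain ⟨cand, hcand⟩ : ∃ cand, cand = (Pool.Agent.TH869.EVF.PA M0 1 (T : ℝ)).filter
    (fun p => W' < p) := ⟨_, rfl⟩
  have hcard : (Pool.Agent.TH869.EVF.PA M0 1 (T : ℝ)).card ≤ cand.card + (W' + 1) := by
    rw [← Finset.card_filter_add_card_filter_not (s := Pool.Agent.TH869.EVF.PA M0 1 (T : ℝ))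
      (fun p => W' < p), ← hcand]
    refine Nat.add_le_add_left ?_ _
    rw [← card_range (W' + 1)]
    refine card_le_card fun p hp => ?_
    rw [mem_range]
    have := (mem_filter.1 hp).2
    omega
  have hncand : n ≤ cand.card := by
    have h1 : (n : ℝ) * Real.log T ≤ cand.card * Real.log T := by
      have h2 : ((Pool.Agent.TH869.EVF.PA M0 1 (T : ℝ)).card : ℝ) ≤ cand.card + (W' + 1) := by
        exact_mod_cast hcard
      have h3 := mul_le_mul_of_nonneg_right h2 hlogT.le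
      nlinarith
    have h2 := le_of_mul_le_mul_right h1 hlogT
    exact_mod_cast h2
  obtain ⟨P, hPsub, hPcard⟩ := Finset.exists_subset_card_eq hncand
  have hPp : ∀ p ∈ P, p.Prime ∧ W' < p ∧ p ≤ T ∧ p % M0 = 1 := by
    intro p hp
    have h1 := hPsub hp
    rw [hcand, mem_filter, Pool.Agent.TH869.EVF.PA, mem_filter, mem_Icc, Nat.floor_natCast] at h1
    obtain ⟨⟨⟨h2, h3⟩, h4, h5⟩, h6⟩ := h1
    refine ⟨h4, h6, h3, ?_⟩
    rw [ZMod.natCast_eq_natCast_iff] at h5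
    unfold Nat.ModEq at h5
    rw [h5]
    exact Nat.mod_eq_of_lt (by omega)
  have hex : ∀ p ∈ P, ∃ ξ : O (-(A * C)) B, Elt W p ξ ∧ sz ξ ≤ K0 * p := by
    intro p hp
    obtain ⟨h1, h2, h3, h4⟩ := hPp p hp
    exact hel p h1 (by omega) h4
  choose! ξ hξ1 hξ2 using hex
  -- the parameters
  obtain ⟨k, hk⟩ : ∃ k, k = Nat.log l ((2 * T) ^ n) := ⟨_, rfl⟩
  have hk1 : l ^ k ≤ (2 * T) ^ n := by
    rw [hk]
    exact Nat.pow_log_le_self l (by positivity)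
  have hk2 : (2 * T) ^ n < l ^ (k + 1) := by
    rw [hk]
    exact Nat.lt_pow_succ_log_self hl.one_lt _
  obtain ⟨n', hn'⟩ : ∃ n', n = n' + 2 := ⟨n - 2, by omega⟩
  have hcount : 2 * l ^ k * 2 ^ (n - 2) < ((4 * T - 1) + 1) ^ P.card := by
    rw [hPcard, Nat.sub_add_cancel (by omega)]
    have h1 : (4 * T) ^ n = (2 * T) ^ n * 2 ^ n := by
      rw [← mul_pow]
      congr 1
      ring
    rw [h1, hn', Nat.add_sub_cancel]
    rw [hn'] at hk1
    have h2 : 0 < (2 * T) ^ (n' + 2) := by positivity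
    calc 2 * l ^ k * 2 ^ n' = l ^ k * 2 ^ (n' + 1) := by rw [pow_succ]; ring
      _ ≤ (2 * T) ^ (n' + 2) * 2 ^ (n' + 1) := Nat.mul_le_mul hk1 le_rfl
      _ < (2 * T) ^ (n' + 2) * 2 ^ (n' + 2) :=
          Nat.mul_lt_mul_of_pos_left (Nat.pow_lt_pow_right (by norm_num) (by omega)) h2
  obtain ⟨Z, hZ1, hZ2, hZ3⟩ := core (P := P) (ξ := ξ) (H := K1 * T) (E := 4 * T - 1)
    (fun p hp => hξ1 p hp) hl (by omega) (fun h => by
      have := (hPp l h).2.1
      omega) hcount (fun p hp => by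
      have h1 := hξ2 p hp
      have h2 := (hPp p hp).2.2.1
      calc KK (-(A * C)) B * sz (ξ p) ≤ KK (-(A * C)) B * (K0 * T) :=
            Nat.mul_le_mul le_rfl (h1.trans (Nat.mul_le_mul le_rfl h2))
        _ = _ := by rw [hK1]; ring) (by
      rw [hK1, mul_assoc]
      exact Nat.le_mul_of_pos_right _ (Nat.mul_pos hK0 hTpos))
  -- the points
  have hpt : ∀ z ∈ Z, ∃ x y : ℤ, IsCoprime x y ∧ 0 < y ∧ qf A B C x y ≠ 0 ∧
      x.natAbs ≤ A.natAbs * sz z ∧ y.natAbs ≤ A.natAbs * sz z ∧ x * (A * z.im) = y * z.re ∧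
      ∃ m : ℕ, 0 < m ∧ (∀ r : ℕ, r.Prime → (r : ℤ) ∣ y * qf A B C x y → r ∣ m) ∧
        m * l ^ k ≤ (l * A.natAbs * W.factorial * ∏ p ∈ P, p) * y.natAbs := by
    intro z hz
    obtain ⟨h1, h2, h3, h4, h5, -⟩ := hZ2 z hz
    exact point hA hl z h1 h2 h3 h4 h5 fun p hp => (hPp p hp).1.pos
  choose! fx fy q1 q2 q3 q4 q5 q6 q7 using hpt
  have hinj : Set.InjOn (fun z => (fx z, fy z)) (Z : Set (O (-(A * C)) B)) := by
    intro z hz w hw h
    by_contra hne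
    rw [Prod.mk.injEq] at h
    obtain ⟨h1, h2⟩ := h
    apply hZ3 z hz w hw hne
    have e1 := q6 z hz
    have e2 := q6 w hw
    rw [← h1, ← h2] at e2
    have h3 : fy z ≠ 0 := (q2 z hz).ne'
    apply mul_left_cancel₀ h3
    linear_combination w.im * (-e1) + z.im * e2
  refine ⟨Z.image (fun z => (fx z, fy z)), ?_, ?_⟩
  · rw [card_image_of_injOn hinj]
    exact hZ1
  · intro s hs
    obtain ⟨z, hz, rfl⟩ := mem_image.1 hs
    have hsz : ((A.natAbs * sz z : ℕ) : ℝ) ≤ Real.exp (3 * (T : ℝ) ^ 2) := by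
      have h1 := (hZ2 z hz).2.2.2.2.2
      rw [hPcard, Nat.sub_add_cancel (by omega)] at h1
      have h2 : ((A.natAbs * sz z : ℕ) : ℝ) ≤ A.natAbs * ((K1 : ℝ) * T) ^ (2 * (4 * T) * n + 2) := by
        have := Nat.mul_le_mul (le_refl A.natAbs) h1
        exact_mod_cast this
      refine h2.trans ?_
      have hK1R : (0 : ℝ) < K1 := by exact_mod_cast hK11
      have hAR : (0 : ℝ) < A.natAbs := by exact_mod_cast hA1
      rw [← Real.log_le_iff_le_exp (by positivity), Real.log_mul hAR.ne' (by positivity),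
        Real.log_pow, Real.log_mul hK1R.ne' hTR.ne']
      have h3 : Real.log K1 ≤ Real.log T := Real.log_le_log hK1R t3
      have h4 : ((2 * (4 * T) * n + 2 : ℕ) : ℝ) * (Real.log K1 + Real.log T) ≤
          ((2 * (4 * T) * n + 2 : ℕ) : ℝ) * (2 * Real.log T) :=
        mul_le_mul_of_nonneg_left (by linarith) (Nat.cast_nonneg _)
      have h5 : ((2 * (4 * T) * n + 2 : ℕ) : ℝ) * (2 * Real.log T) =
          16 * T * (n * Real.log T) + 4 * Real.log T := by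
        push_cast
        ring
      have h6 : (n : ℝ) * Real.log T ≤ 1 / 8 * T := by nlinarith
      have h7 : 16 * (T : ℝ) * (n * Real.log T) ≤ 16 * (T : ℝ) * (1 / 8 * T) :=
        mul_le_mul_of_nonneg_left h6 (by positivity)
      nlinarith
    refine ⟨⟨q1 z hz, q2 z hz, q3 z hz⟩, ?_, ?_, ?_⟩
    · exact le_trans (by exact_mod_cast q4 z hz) hsz
    · exact le_trans (by exact_mod_cast q5 z hz) hsz
    · obtain ⟨m, hm0, hm1, hm2⟩ := q7 z hz
      refine ⟨m, ⟨hm0, hm1⟩, ?_⟩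
      have h1 : ∏ p ∈ P, p ≤ T ^ n := by
        rw [← hPcard, ← prod_const]
        exact prod_le_prod' fun p hp => (hPp p hp).2.2.1
      have h2 : m * (2 * T) ^ n ≤ (l * l * A.natAbs * W.factorial) * (fy z).natAbs * T ^ n := by
        calc m * (2 * T) ^ n ≤ m * l ^ (k + 1) := Nat.mul_le_mul le_rfl hk2.le
          _ = l * (m * l ^ k) := by rw [pow_succ]; ring
          _ ≤ l * ((l * A.natAbs * W.factorial * ∏ p ∈ P, p) * (fy z).natAbs) :=
              Nat.mul_le_mul le_rfl hm2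
          _ ≤ l * ((l * A.natAbs * W.factorial * T ^ n) * (fy z).natAbs) :=
              Nat.mul_le_mul le_rfl (Nat.mul_le_mul (Nat.mul_le_mul le_rfl h1) le_rfl)
          _ = _ := by ring
      have h3 : m * 2 ^ n * T ^ n ≤ (l * l * A.natAbs * W.factorial) * (fy z).natAbs * T ^ n := by
        calc m * 2 ^ n * T ^ n = m * (2 * T) ^ n := by rw [mul_pow]; ring
          _ ≤ _ := h2
      have h4 := Nat.le_of_mul_le_mul_right h3 (by positivity)
      rw [hC2]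
      exact_mod_cast h4

end Pool.Agent.H38.ST
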