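import Pool.Agent.H38.ST.Lv

/-!
# Many coprime pairs with a small radical of `y Q(x, y)`
-/

set_option autoImplicit false

namespace Pool.Agent.H38.ST

open Finset Filter Topology

theorem sqrt_div_log_tendsto : Tendsto (fun L : ℝ => √L / Real.log L) atTop atTop := by
  rw [tendsto_atTop]
  intro M
  have h1 : ∀ᶠ L : ℝ in atTop, (2 * |M| + 1) * Real.log (√L) ≤ √L :=
    (Real.tendsto_sqrt_atTop).eventually (log_div_tendsto (2 * |M| + 1))
  filter_upwards [h1, eventually_ge_atTop (2 : ℝ)] with L hL hL2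
  have hlog : 0 < Real.log L := Real.log_pos (by linarith)
  rw [le_div_iff₀ hlog]
  rw [Real.log_sqrt (by linarith)] at hL
  have h2 : M * Real.log L ≤ |M| * Real.log L :=
    mul_le_mul_of_nonneg_right (le_abs_self M) hlog.le
  nlinarith

theorem many (A B C : ℤ) (hA : A ≠ 0) (hD : B ^ 2 - 4 * A * C ≠ 0) :
    ∃ c : ℝ, 0 < c ∧ ∀ᶠ L : ℝ in atTop, ∃ S : Finset (ℤ × ℤ),
      Real.exp (c * (√L / Real.log L)) ≤ S.card ∧ ∀ s ∈ S, IsPt A B C s ∧
        (s.1.natAbs : ℝ) ≤ Real.exp (3 / 4 * L) ∧ (s.2.natAbs : ℝ) ≤ Real.exp (3 / 4 * L) ∧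
        ∃ m : ℕ, RadDvd A B C s m ∧
          (m : ℝ) ≤ s.2.natAbs * Real.exp (-(c * (√L / Real.log L))) := by
  obtain ⟨κ, C2, hκ, hκ8, hC2, T0, hT0⟩ := level A B C hA hD
  refine ⟨κ / 8, by positivity, ?_⟩
  have hu := sqrt_div_log_tendsto.eventually_ge_atTop ((20 + 10 * |Real.log C2|) / κ)
  filter_upwards [hu, eventually_ge_atTop (64 : ℝ),
    (Real.tendsto_sqrt_atTop).eventually_ge_atTop (4 * (T0 : ℝ))] with L hL hL64 hLT
  have hL0 : 0 ≤ L := by linarith
  have hs8 : 8 ≤ √L := by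
    rw [show (8 : ℝ) = √64 by
      rw [show (64 : ℝ) = 8 ^ 2 by norm_num]
      exact (Real.sqrt_sq (by norm_num)).symm]
    exact Real.sqrt_le_sqrt hL64
  have hsq : √L * √L = L := Real.mul_self_sqrt hL0
  have hlogL : 0 < Real.log L := Real.log_pos (by linarith)
  obtain ⟨u, hu'⟩ : ∃ u, u = √L / Real.log L := ⟨_, rfl⟩
  rw [← hu'] at hL ⊢
  have hu0 : u * Real.log L = √L := by rw [hu']; field_simp
  obtain ⟨T, hT⟩ : ∃ T : ℕ, T = ⌊√L / 2⌋₊ := ⟨_, rfl⟩
  have hT1 : (T : ℝ) ≤ √L / 2 := by rw [hT]; exact Nat.floor_le (by positivity)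
  have hT2 : √L / 2 < T + 1 := by rw [hT]; exact Nat.lt_floor_add_one _
  have hT3 : √L / 4 ≤ T := by linarith
  have hT4 : (2 : ℝ) ≤ T := by linarith
  have hTT0 : T0 ≤ T := by
    have : (T0 : ℝ) ≤ T := by linarith
    exact_mod_cast this
  have hlogT : 0 < Real.log T := Real.log_pos (by linarith)
  have hlogT2 : Real.log T ≤ Real.log L / 2 := by
    rw [← Real.log_sqrt hL0]
    exact Real.log_le_log (by linarith) (by linarith)
  obtain ⟨n, hn⟩ : ∃ n : ℕ, n = ⌊κ * T / Real.log T⌋₊ := ⟨_, rfl⟩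
  have hn1 : (n : ℝ) ≤ κ * T / Real.log T := by rw [hn]; exact Nat.floor_le (by positivity)
  have hn2 : κ * T / Real.log T < n + 1 := by rw [hn]; exact Nat.lt_floor_add_one _
  have hn3 : (n : ℝ) * Real.log T ≤ κ * T := (le_div_iff₀ hlogT).1 hn1
  have hn4 : κ / 2 * u ≤ n + 1 := by
    refine le_trans ?_ hn2.le
    rw [le_div_iff₀ hlogT]
    calc κ / 2 * u * Real.log T ≤ κ / 2 * u * (Real.log L / 2) := by
          refine mul_le_mul_of_nonneg_left hlogT2 ?_
          have : 0 ≤ u := by rw [hu']; positivity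
          positivity
      _ = κ * (√L / 4) := by rw [← hu0]; ring
      _ ≤ κ * T := mul_le_mul_of_nonneg_left hT3 hκ.le
  have hu20 : 20 + 10 * |Real.log C2| ≤ κ * u := by
    have := (div_le_iff₀ hκ).1 hL
    linarith
  have habs := abs_nonneg (Real.log C2)
  have hnn : (2 : ℝ) ≤ n := by linarith
  have hnn2 : 2 ≤ n := by exact_mod_cast hnn
  obtain ⟨S, hS1, hS2⟩ := hT0 T hTT0 n hnn2 hn3
  have hlog2 : (0.69 : ℝ) < Real.log 2 := by
    have := Real.log_two_gt_d9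
    linarith
  have hT34 : Real.exp (3 * (T : ℝ) ^ 2) ≤ Real.exp (3 / 4 * L) := by
    rw [Real.exp_le_exp]
    nlinarith
  refine ⟨S, ?_, fun s hs => ?_⟩
  · have h1 : ((2 : ℝ) ^ (n - 2)) ≤ S.card := by exact_mod_cast hS1
    refine le_trans ?_ h1
    rw [← Real.exp_log (show (0 : ℝ) < 2 ^ (n - 2) by positivity), Real.log_pow, Real.exp_le_exp,
      Nat.cast_sub hnn2]
    push_cast
    have h2 : ((n : ℝ) - 2) * 0.69 ≤ ((n : ℝ) - 2) * Real.log 2 :=
      mul_le_mul_of_nonneg_left hlog2.le (by linarith)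
    linarith
  · obtain ⟨h1, h2, h3, m, h4, h5⟩ := hS2 s hs
    refine ⟨h1, h2.trans hT34, h3.trans hT34, m, h4, ?_⟩
    have h6 : C2 ≤ 2 ^ n * Real.exp (-(κ / 8 * u)) := by
      rw [← Real.exp_log hC2, ← Real.exp_log (show (0 : ℝ) < 2 ^ n by positivity), Real.log_pow,
        ← Real.exp_add, Real.exp_le_exp]
      have h7 : (n : ℝ) * 0.69 ≤ (n : ℝ) * Real.log 2 :=
        mul_le_mul_of_nonneg_left hlog2.le (by linarith)
      have h8 := le_abs_self (Real.log C2)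
      linarith
    have h7 : (m : ℝ) * 2 ^ n ≤ (s.2.natAbs * Real.exp (-(κ / 8 * u))) * 2 ^ n := by
      refine h5.trans ?_
      have := mul_le_mul_of_nonneg_right h6 (Nat.cast_nonneg (α := ℝ) s.2.natAbs)
      linarith
    exact le_of_mul_le_mul_right h7 (by positivity)

end Pool.Agent.H38.ST
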