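import Mathlib

/-!
# Sums of `log N(v)` over the primes that divide an integral element
-/

set_option autoImplicit false

namespace Pool.Agent.H38.ST

open NumberField IsDedekindDomain Finset

variable {K : Type} [Field K] [NumberField K]

/-- `log N(v)` -/
noncomputable def lN (v : HeightOneSpectrum (𝓞 K)) : ℝ := Real.log (Ideal.absNorm v.asIdeal : ℝ)

theorem absNorm_ge_two (v : HeightOneSpectrum (𝓞 K)) : 2 ≤ Ideal.absNorm v.asIdeal := by
  have h0 : Ideal.absNorm v.asIdeal ≠ 0 := Ideal.absNorm_eq_zero_iff.not.2 v.ne_bot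
  have h1 : Ideal.absNorm v.asIdeal ≠ 1 := Ideal.absNorm_eq_one_iff.not.2 v.isPrime.ne_top
  omega

theorem lN_pos (v : HeightOneSpectrum (𝓞 K)) : 0 < lN v := by
  refine Real.log_pos ?_
  have := absNorm_ge_two v
  have h : (2 : ℝ) ≤ (Ideal.absNorm v.asIdeal : ℝ) := by exact_mod_cast this
  linarith

theorem finite_mem {z : 𝓞 K} (hz : z ≠ 0) : {v : HeightOneSpectrum (𝓞 K) | z ∈ v.asIdeal}.Finite := by
  have h : Ideal.span {z} ≠ 0 := by
    rw [Ne, Ideal.zero_eq_bot, Ideal.span_singleton_eq_bot]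
    exact hz
  refine (Ideal.finite_factors h).subset fun v hv => ?_
  exact Ideal.dvd_span_singleton.2 hv

theorem sum_lN_le {z : 𝓞 K} (hz : z ≠ 0) (V : Finset (HeightOneSpectrum (𝓞 K)))
    (hV : ∀ v ∈ V, z ∈ v.asIdeal) :
    ∑ v ∈ V, lN v ≤ Real.log (Ideal.absNorm (Ideal.span {z}) : ℝ) := by
  have h1 : ∏ v ∈ V, v.asIdeal ∣ Ideal.span {z} := by
    refine Finset.prod_dvd_of_coprime (fun v _ w _ hne => ?_) fun v hv => ?_
    · exact HeightOneSpectrum.isCoprime_of_ne v w hne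
    · exact Ideal.dvd_span_singleton.2 (hV v hv)
  have h2 := map_dvd (Ideal.absNorm (S := 𝓞 K)) h1
  rw [map_prod] at h2
  have h0 : Ideal.absNorm (Ideal.span {z}) ≠ 0 := by
    rw [Ne, Ideal.absNorm_eq_zero_iff, Ideal.span_singleton_eq_bot]
    exact hz
  have h3 := Nat.le_of_dvd (Nat.pos_of_ne_zero h0) h2
  have h4 : ∑ v ∈ V, lN v = Real.log ((∏ v ∈ V, Ideal.absNorm v.asIdeal : ℕ) : ℝ) := by
    push_cast
    rw [Real.log_prod]
    · rfl
    · intro v _
      have := absNorm_ge_two v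
      have h : (2 : ℝ) ≤ (Ideal.absNorm v.asIdeal : ℝ) := by exact_mod_cast this
      linarith
  rw [h4]
  refine Real.log_le_log ?_ (by exact_mod_cast h3)
  have : 0 < ∏ v ∈ V, Ideal.absNorm v.asIdeal := prod_pos fun v _ => by
    have := absNorm_ge_two v
    omega
  exact_mod_cast this

theorem absNorm_nat (m : ℕ) : Ideal.absNorm (Ideal.span {(m : 𝓞 K)}) = m ^ Module.finrank ℚ K := by
  rw [Ideal.absNorm_span_natCast, RingOfIntegers.rank]

theorem sum_lN_nat {m : ℕ} (hm : 0 < m) (V : Finset (HeightOneSpectrum (𝓞 K)))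
    (hV : ∀ v ∈ V, (m : 𝓞 K) ∈ v.asIdeal) :
    ∑ v ∈ V, lN v ≤ (Module.finrank ℚ K : ℝ) * Real.log m := by
  have h := sum_lN_le (z := (m : 𝓞 K)) (by exact_mod_cast hm.ne') V hV
  rw [absNorm_nat, Nat.cast_pow, Real.log_pow] at h
  exact h

theorem absNorm_eq (z : 𝓞 K) : (Ideal.absNorm (Ideal.span {z}) : ℝ) =
    ∏ w : InfinitePlace K, w (z : K) ^ w.mult := by
  rw [InfinitePlace.prod_eq_abs_norm, Ideal.absNorm_span_singleton, ← Algebra.coe_norm_int]
  have : (((Algebra.norm ℤ z).natAbs : ℕ) : ℝ) = |((Algebra.norm ℤ z : ℤ) : ℝ)| := by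
    rw [← Int.cast_natCast, Int.natCast_natAbs]
    push_cast
    rfl
  rw [this]
  push_cast
  rfl

/-- the size of the norm of `u x + w y` -/
theorem log_absNorm_le (u w : 𝓞 K) : ∃ C : ℝ, ∀ (x y : ℤ) (M : ℝ), 1 ≤ M → |(x : ℝ)| ≤ M →
    |(y : ℝ)| ≤ M → u * x + w * y ≠ 0 →
    Real.log (Ideal.absNorm (Ideal.span {u * x + w * y}) : ℝ) ≤
      (Module.finrank ℚ K : ℝ) * (Real.log M + C) := by
  classical
  obtain ⟨D, hD⟩ : ∃ D : ℝ, D = 1 + ∑ v : InfinitePlace K, (v (u : K) + v (w : K)) := ⟨_, rfl⟩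
  have hDv : ∀ v : InfinitePlace K, v (u : K) + v (w : K) ≤ D := by
    intro v
    have := Finset.single_le_sum (f := fun v : InfinitePlace K => v (u : K) + v (w : K))
      (fun v _ => add_nonneg (apply_nonneg v _) (apply_nonneg v _)) (Finset.mem_univ v)
    rw [hD]
    linarith
  have hD1 : 1 ≤ D := by
    have : 0 ≤ ∑ v : InfinitePlace K, (v (u : K) + v (w : K)) :=
      Finset.sum_nonneg fun v _ => add_nonneg (apply_nonneg v _) (apply_nonneg v _)
    rw [hD]
    linarith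
  refine ⟨Real.log D, fun x y M hM hx hy hne => ?_⟩
  have h0 : Ideal.absNorm (Ideal.span {u * x + w * y}) ≠ 0 := by
    rw [Ne, Ideal.absNorm_eq_zero_iff, Ideal.span_singleton_eq_bot]
    exact hne
  have hpos : (0 : ℝ) < (Ideal.absNorm (Ideal.span {u * x + w * y}) : ℝ) := by
    exact_mod_cast Nat.pos_of_ne_zero h0
  have hDM : 0 < M * D := by positivity
  have h1 : (Ideal.absNorm (Ideal.span {u * x + w * y}) : ℝ) ≤ (M * D) ^ Module.finrank ℚ K := by
    rw [absNorm_eq, ← InfinitePlace.sum_mult_eq, ← Finset.prod_pow_eq_pow_sum]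
    refine Finset.prod_le_prod (fun v _ => pow_nonneg (apply_nonneg v _) _) fun v _ => ?_
    refine pow_le_pow_left₀ (apply_nonneg v _) ?_ _
    have e : ((u * x + w * y : 𝓞 K) : K) = (u : K) * ((x : ℤ) : K) + (w : K) * ((y : ℤ) : K) := by
      simp
    rw [e]
    refine (v.1.add_le _ _).trans ?_
    show v ((u : K) * ((x : ℤ) : K)) + v ((w : K) * ((y : ℤ) : K)) ≤ M * D
    rw [map_mul, map_mul, InfinitePlace.map_intCast, InfinitePlace.map_intCast]
    have h2 : ‖x‖ = |(x : ℝ)| := by rw [Int.norm_eq_abs]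
    have h3 : ‖y‖ = |(y : ℝ)| := by rw [Int.norm_eq_abs]
    rw [h2, h3]
    have h4 := mul_le_mul_of_nonneg_left hx (apply_nonneg v (u : K))
    have h5 := mul_le_mul_of_nonneg_left hy (apply_nonneg v (w : K))
    have h6 := mul_le_mul_of_nonneg_right (hDv v) (by linarith : (0 : ℝ) ≤ M)
    linarith
  calc Real.log (Ideal.absNorm (Ideal.span {u * x + w * y}) : ℝ)
      ≤ Real.log ((M * D) ^ Module.finrank ℚ K) := Real.log_le_log hpos h1
    _ = _ := by
        rw [Real.log_pow, Real.log_mul (by linarith) (by linarith)]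

end Pool.Agent.H38.ST
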