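import Pool.Agent.H38.ST.N1
import Pool.Agent.H38.ST.Lv

/-!
# The truncated counting function at the points given by coprime integers
-/

set_option autoImplicit false

namespace Pool.Agent.H38.ST

open NumberField IsDedekindDomain Finset

variable {K : Type} [Field K] [NumberField K]

/-- one term of the truncated counting function -/
noncomputable def term (v : HeightOneSpectrum (𝓞 K)) (a x : Fin 2 → K) : ℝ :=
  min
    (Real.log
        (max (FinitePlace.mk v (x 0)) (FinitePlace.mk v (x 1)) *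
          max (FinitePlace.mk v (a 0)) (FinitePlace.mk v (a 1)) /
          FinitePlace.mk v (x 0 * a 1 - x 1 * a 0)) /
      (Module.finrank ℚ K : ℝ))
    (Real.log (Ideal.absNorm v.asIdeal : ℝ) / (Module.finrank ℚ K : ℝ))

/-- the truncated counting function -/
noncomputable def cnt (T : Set (HeightOneSpectrum (𝓞 K))) {q : ℕ} (α : Fin q → Fin 2 → K)
    (x : Fin 2 → K) : ℝ :=
  ∑ᶠ (v : HeightOneSpectrum (𝓞 K)) (_ : v ∉ T), ∑ l : Fin q, term v (α l) x

theorem mk_int_le (v : HeightOneSpectrum (𝓞 K)) (z : 𝓞 K) : FinitePlace.mk v (z : K) ≤ 1 :=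
  FinitePlace.norm_le_one K v z

theorem mk_eq_one {v : HeightOneSpectrum (𝓞 K)} {z : 𝓞 K} (h : z ∉ v.asIdeal) :
    FinitePlace.mk v (z : K) = 1 :=
  (FinitePlace.norm_eq_one_iff_notMem K v z).2 h

theorem finrank_pos' : (0 : ℝ) < (Module.finrank ℚ K : ℝ) := by
  exact_mod_cast (Module.finrank_pos (R := ℚ) (M := K))

open Classical in
theorem term_le (v : HeightOneSpectrum (𝓞 K)) {α x : Fin 2 → K} {c : K} (hc : c ≠ 0)
    {a X : Fin 2 → 𝓞 K} (ha : ∀ j, c * α j = (a j : K)) (hX : ∀ j, x j = (X j : K))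
    (hz : x 0 * α 1 - x 1 * α 0 ≠ 0) :
    term v α x ≤ if X 0 * a 1 - X 1 * a 0 ∈ v.asIdeal then lN v / (Module.finrank ℚ K : ℝ) else 0 := by
  have hd : (0 : ℝ) < (Module.finrank ℚ K : ℝ) := finrank_pos'
  split_ifs with h
  · exact min_le_right _ _
  · refine (min_le_left _ _).trans ?_
    refine div_nonpos_of_nonpos_of_nonneg ?_ hd.le
    have hcv : 0 < FinitePlace.mk v c := FinitePlace.pos_iff.2 hc
    have hzv : 0 < FinitePlace.mk v (x 0 * α 1 - x 1 * α 0) := FinitePlace.pos_iff.2 hz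
    have e1 : FinitePlace.mk v c * FinitePlace.mk v (x 0 * α 1 - x 1 * α 0) = 1 := by
      rw [← map_mul, ← mk_eq_one h]
      congr 1
      have : ((X 0 * a 1 - X 1 * a 0 : 𝓞 K) : K) = (X 0 : K) * a 1 - (X 1 : K) * a 0 := by simp
      rw [this, ← hX, ← hX, ← ha, ← ha]
      ring
    have e2 : ∀ j, FinitePlace.mk v c * FinitePlace.mk v (α j) ≤ 1 := by
      intro j
      rw [← map_mul, ha j]
      exact mk_int_le v _
    have e3 : max (FinitePlace.mk v (x 0)) (FinitePlace.mk v (x 1)) ≤ 1 := by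
      rw [hX, hX]
      exact max_le (mk_int_le v _) (mk_int_le v _)
    have e4 : FinitePlace.mk v c * max (FinitePlace.mk v (α 0)) (FinitePlace.mk v (α 1)) ≤ 1 := by
      rw [mul_max_of_nonneg _ _ hcv.le]
      exact max_le (e2 0) (e2 1)
    have n1 : 0 ≤ max (FinitePlace.mk v (x 0)) (FinitePlace.mk v (x 1)) :=
      (apply_nonneg _ _).trans (le_max_left _ _)
    have n2 : 0 ≤ max (FinitePlace.mk v (α 0)) (FinitePlace.mk v (α 1)) :=
      (apply_nonneg _ _).trans (le_max_left _ _)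
    refine Real.log_nonpos (by positivity) ?_
    rw [div_le_one hzv]
    have h1 : FinitePlace.mk v c * (max (FinitePlace.mk v (x 0)) (FinitePlace.mk v (x 1)) *
        max (FinitePlace.mk v (α 0)) (FinitePlace.mk v (α 1))) ≤
        FinitePlace.mk v c * FinitePlace.mk v (x 0 * α 1 - x 1 * α 0) := by
      rw [e1]
      calc _ = max (FinitePlace.mk v (x 0)) (FinitePlace.mk v (x 1)) *
            (FinitePlace.mk v c * max (FinitePlace.mk v (α 0)) (FinitePlace.mk v (α 1))) := by ring
        _ ≤ 1 := mul_le_one₀ e3 (by positivity) e4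
    exact le_of_mul_le_mul_left h1 hcv

theorem term_nonneg (v : HeightOneSpectrum (𝓞 K)) {α x : Fin 2 → K}
    (hz : x 0 * α 1 - x 1 * α 0 ≠ 0) : 0 ≤ term v α x := by
  have hd : (0 : ℝ) < (Module.finrank ℚ K : ℝ) := finrank_pos'
  refine le_min (div_nonneg (Real.log_nonneg ?_) hd.le) (div_nonneg (lN_pos v).le hd.le)
  have hzv : 0 < FinitePlace.mk v (x 0 * α 1 - x 1 * α 0) := FinitePlace.pos_iff.2 hz
  rw [le_div_iff₀ hzv, one_mul]
  have n1 : 0 ≤ max (FinitePlace.mk v (x 0)) (FinitePlace.mk v (x 1)) :=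
    (apply_nonneg _ _).trans (le_max_left _ _)
  have h1 : FinitePlace.mk v (x 0 * α 1 - x 1 * α 0) ≤
      max (FinitePlace.mk v (x 0 * α 1)) (FinitePlace.mk v (x 1 * α 0)) := by
    have := FinitePlace.add_le (FinitePlace.mk v) (x 0 * α 1) (-(x 1 * α 0))
    rw [← sub_eq_add_neg] at this
    refine this.trans (le_of_eq ?_)
    congr 1
    exact (FinitePlace.mk v).1.map_neg _
  refine h1.trans (max_le ?_ ?_)
  · rw [map_mul]
    exact mul_le_mul (le_max_left _ _) (le_max_right _ _) (apply_nonneg _ _) n1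
  · rw [map_mul]
    exact mul_le_mul (le_max_right _ _) (le_max_left _ _) (apply_nonneg _ _) n1

open Classical in
/-- the truncated counting function is at most the sum over the primes that divide the values of
the linear forms -/
theorem cnt_le (T : Set (HeightOneSpectrum (𝓞 K))) {q : ℕ} {α : Fin q → Fin 2 → K}
    {x : Fin 2 → K} {c : Fin q → K} (hc : ∀ l, c l ≠ 0)
    {a : Fin q → Fin 2 → 𝓞 K} {X : Fin 2 → 𝓞 K} (ha : ∀ l j, c l * α l j = (a l j : K))
    (hX : ∀ j, x j = (X j : K)) (hz : ∀ l, x 0 * α l 1 - x 1 * α l 0 ≠ 0)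
    (V : Finset (HeightOneSpectrum (𝓞 K)))
    (hV : ∀ v, (∃ l, X 0 * a l 1 - X 1 * a l 0 ∈ v.asIdeal) → v ∈ V) :
    cnt T α x ≤ (∑ l, ∑ v ∈ V, if X 0 * a l 1 - X 1 * a l 0 ∈ v.asIdeal then lN v else 0) /
      (Module.finrank ℚ K : ℝ) := by
  have hd : (0 : ℝ) < (Module.finrank ℚ K : ℝ) := finrank_pos'
  have h0 : ∀ v, v ∉ V → ∀ l, term v (α l) x = 0 := by
    intro v hv l
    refine le_antisymm ?_ (term_nonneg v (hz l))
    have h1 := term_le v (hc l) (ha l) hX (hz l)
    rw [if_neg] at h1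
    · exact h1
    · exact fun h => hv (hV v ⟨l, h⟩)
  unfold cnt
  rw [finsum_eq_sum_of_support_subset (s := V)]
  · rw [Finset.sum_comm, Finset.sum_div]
    refine Finset.sum_le_sum fun v _ => ?_
    rw [finsum_eq_if]
    by_cases h : v ∈ T
    · rw [if_neg (not_not.2 h)]
      refine div_nonneg (Finset.sum_nonneg fun l _ => ?_) hd.le
      split_ifs
      · exact (lN_pos v).le
      · exact le_rfl
    · rw [if_pos h, Finset.sum_div]
      refine Finset.sum_le_sum fun l _ => ?_
      refine (term_le v (hc l) (ha l) hX (hz l)).trans (le_of_eq ?_)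
      split_ifs
      · rfl
      · rw [zero_div]
  · intro v hv
    by_contra hcon
    have hcon' : v ∉ V := hcon
    rw [Function.mem_support, finsum_eq_if] at hv
    apply hv
    by_cases h : v ∈ T
    · rw [if_neg (not_not.2 h)]
    · rw [if_pos h]
      exact Finset.sum_eq_zero fun l _ => h0 v hcon' l

end Pool.Agent.H38.ST
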