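import Pool.Agent.H38.ST.N2

/-!
# The truncated counting function and the radical
-/

set_option autoImplicit false

namespace Pool.Agent.H38.ST

open NumberField IsDedekindDomain Finset

variable {K : Type} [Field K] [NumberField K]

/-- the point `G (x, y)` -/
def ptI (G : Fin 2 → Fin 2 → 𝓞 K) (s : ℤ × ℤ) (j : Fin 2) : 𝓞 K := G j 0 * s.1 + G j 1 * s.2

/-- the point `G (x, y)` -/
def pt (G : Fin 2 → Fin 2 → 𝓞 K) (s : ℤ × ℤ) (j : Fin 2) : K := (ptI G s j : K)

omit [NumberField K] in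
theorem exists_prime_mem (v : HeightOneSpectrum (𝓞 K)) (n : ℕ) (hn : n ≠ 0)
    (h : (n : 𝓞 K) ∈ v.asIdeal) : ∃ r : ℕ, r.Prime ∧ r ∣ n ∧ (r : 𝓞 K) ∈ v.asIdeal := by
  induction n using Nat.strong_induction_on with
  | _ n ih =>
    by_cases h1 : n = 1
    · exfalso
      rw [h1, Nat.cast_one] at h
      exact v.isPrime.ne_top ((Ideal.eq_top_iff_one _).2 h)
    · have hr := Nat.minFac_prime h1
      obtain ⟨k, hk⟩ := Nat.minFac_dvd n
      have hk0 : k ≠ 0 := by
        rintro rfl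
        rw [mul_zero] at hk
        exact hn hk
      have h2 : ((n.minFac : ℕ) : 𝓞 K) * (k : 𝓞 K) ∈ v.asIdeal := by
        rw [← Nat.cast_mul, ← hk]
        exact h
      rcases v.isPrime.mem_or_mem h2 with h3 | h3
      · exact ⟨n.minFac, hr, Nat.minFac_dvd n, h3⟩
      · have hkn : k < n := by
          have h4 := hr.two_le
          have h5 : 0 < k := Nat.pos_of_ne_zero hk0
          conv_rhs => rw [hk]
          nlinarith
        obtain ⟨r, h4, h5, h6⟩ := ih k hkn hk0 h3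
        exact ⟨r, h4, h5.trans ⟨n.minFac, by rw [mul_comm]; exact hk⟩, h6⟩

open Classical in
theorem field_bound {q : ℕ} (α : Fin q → Fin 2 → K) (i : Fin 3 → Fin q)
    (hi : Function.Injective i)
    (hα : ∀ t u : Fin 3, t ≠ u → α (i t) 0 * α (i u) 1 - α (i t) 1 * α (i u) 0 ≠ 0)
    (G : Fin 2 → Fin 2 → 𝓞 K) (hG : G 0 0 * G 1 1 - G 0 1 * G 1 0 ≠ 0)
    (A B C : ℤ) (κ : K) (hκ : κ ≠ 0)
    (H : ∀ s : ℤ × ℤ, ∏ t : Fin 3, (pt G s 0 * α (i t) 1 - pt G s 1 * α (i t) 0) =
      κ * ((s.2 * qf A B C s.1 s.2 : ℤ) : K)) :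
    ∃ C0 : ℝ, ∀ (T : Set (HeightOneSpectrum (𝓞 K))) (s : ℤ × ℤ), IsPt A B C s →
      (∀ l, pt G s 0 * α l 1 - pt G s 1 * α l 0 ≠ 0) → ∀ m : ℕ, RadDvd A B C s m →
        ∀ M : ℝ, 1 ≤ M → |(s.1 : ℝ)| ≤ M → |(s.2 : ℝ)| ≤ M →
          cnt T α (pt G s) ≤ Real.log m + ((q : ℝ) - 3) * Real.log M + C0 := by
  have hd : (0 : ℝ) < (Module.finrank ℚ K : ℝ) := finrank_pos'
  -- integral coordinates
  have hex : ∀ l, ∃ (c : K) (b : Fin 2 → 𝓞 K), c ≠ 0 ∧ ∀ j, c * α l j = (b j : K) := by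
    intro l
    obtain ⟨c, hc⟩ := IsLocalization.exist_integer_multiples_of_finite
      (nonZeroDivisors (𝓞 K)) (α l)
    choose b hb using hc
    refine ⟨((c : 𝓞 K) : K), b, ?_, fun j => ?_⟩
    · exact fun h => nonZeroDivisors.coe_ne_zero c (RingOfIntegers.coe_eq_zero_iff.1 h)
    · rw [show ((b j : 𝓞 K) : K) = algebraMap (𝓞 K) K (b j) from rfl, hb j, Algebra.smul_def]
  choose c a hc ha using hex
  obtain ⟨z, hz⟩ : ∃ z : Fin q → (ℤ × ℤ) → 𝓞 K, z = fun l s =>
    ptI G s 0 * a l 1 - ptI G s 1 * a l 0 := ⟨_, rfl⟩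
  have hzK : ∀ l s, (z l s : K) = c l * (pt G s 0 * α l 1 - pt G s 1 * α l 0) := by
    intro l s
    rw [hz]
    have e : ((ptI G s 0 * a l 1 - ptI G s 1 * a l 0 : 𝓞 K) : K) =
        pt G s 0 * (a l 1 : K) - pt G s 1 * (a l 0 : K) := by
      unfold pt
      simp
    show ((ptI G s 0 * a l 1 - ptI G s 1 * a l 0 : 𝓞 K) : K) = _
    rw [e, ← ha, ← ha]
    ring
  have hCC : ∀ l, ∃ CC : ℝ, ∀ (x y : ℤ) (M : ℝ), 1 ≤ M → |(x : ℝ)| ≤ M →
    |(y : ℝ)| ≤ M → (G 0 0 * a l 1 - G 1 0 * a l 0) * x + (G 0 1 * a l 1 - G 1 1 * a l 0) * y ≠ 0 →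
    Real.log (Ideal.absNorm (Ideal.span {(G 0 0 * a l 1 - G 1 0 * a l 0) * (x : 𝓞 K) +
      (G 0 1 * a l 1 - G 1 1 * a l 0) * y}) : ℝ) ≤
      (Module.finrank ℚ K : ℝ) * (Real.log M + CC) := fun l =>
    log_absNorm_le (G 0 0 * a l 1 - G 1 0 * a l 0) (G 0 1 * a l 1 - G 1 1 * a l 0)
  choose CC hCC using hCC
  -- the constant
  obtain ⟨κ1, κ2, hκ2, hκe⟩ := IsFractionRing.div_surjective (A := 𝓞 K)
    ((∏ t : Fin 3, c (i t)) * κ)
  have hκ20 : (κ2 : K) ≠ 0 := fun h =>
    nonZeroDivisors.ne_zero hκ2 (RingOfIntegers.coe_eq_zero_iff.1 h)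
  have hκ' : (∏ t : Fin 3, c (i t)) * κ ≠ 0 :=
    mul_ne_zero (Finset.prod_ne_zero_iff.2 fun t _ => hc _) hκ
  have hκ10 : κ1 ≠ 0 := by
    rintro rfl
    apply hκ'
    rw [← hκe, map_zero, zero_div]
  have hrel : ∀ s : ℤ × ℤ, κ2 * ∏ t : Fin 3, z (i t) s =
      κ1 * ((s.2 * qf A B C s.1 s.2 : ℤ) : 𝓞 K) := by
    intro s
    apply RingOfIntegers.coe_injective
    have e1 : ((κ2 * ∏ t : Fin 3, z (i t) s : 𝓞 K) : K) =
        (κ2 : K) * ∏ t : Fin 3, (z (i t) s : K) := by
      simp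
    have e2 : ((κ1 * ((s.2 * qf A B C s.1 s.2 : ℤ) : 𝓞 K) : 𝓞 K) : K) =
        (κ1 : K) * ((s.2 * qf A B C s.1 s.2 : ℤ) : K) := by
      simp
    refine e1.trans (Eq.trans ?_ e2.symm)
    have e3 : (∏ t : Fin 3, (z (i t) s : K)) =
        ((∏ t : Fin 3, c (i t)) * κ) * ((s.2 * qf A B C s.1 s.2 : ℤ) : K) := by
      rw [mul_assoc, ← H s, ← Finset.prod_mul_distrib]
      exact Finset.prod_congr rfl fun t _ => hzK _ _
    have e4 : (κ2 : K) * ((∏ t : Fin 3, c (i t)) * κ) = (κ1 : K) := by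
      rw [← hκe]
      show (κ2 : K) * ((κ1 : K) / (κ2 : K)) = κ1
      field_simp
    rw [e3, ← mul_assoc, e4]
  -- the bad primes
  obtain ⟨dd, hdd⟩ : ∃ dd : Fin 3 → Fin 3 → 𝓞 K, dd = fun t u =>
    a (i t) 0 * a (i u) 1 - a (i t) 1 * a (i u) 0 := ⟨_, rfl⟩
  have hdd0 : ∀ t u, t ≠ u → dd t u ≠ 0 := by
    intro t u htu h
    have h1 : ((dd t u : 𝓞 K) : K) = c (i t) * c (i u) *
        (α (i t) 0 * α (i u) 1 - α (i t) 1 * α (i u) 0) := by
      rw [hdd]
      have e : ((a (i t) 0 * a (i u) 1 - a (i t) 1 * a (i u) 0 : 𝓞 K) : K) =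
        (a (i t) 0 : K) * (a (i u) 1 : K) - (a (i t) 1 : K) * (a (i u) 0 : K) := by simp
      show ((a (i t) 0 * a (i u) 1 - a (i t) 1 * a (i u) 0 : 𝓞 K) : K) = _
      rw [e, ← ha, ← ha, ← ha, ← ha]
      ring
    rw [h] at h1
    exact mul_ne_zero (mul_ne_zero (hc _) (hc _)) (hα t u htu) h1.symm
  obtain ⟨dG, hdG⟩ : ∃ dG : 𝓞 K, dG = G 0 0 * G 1 1 - G 0 1 * G 1 0 := ⟨_, rfl⟩
  rw [← hdG] at hG
  obtain ⟨δ, hδ⟩ : ∃ δ : 𝓞 K, δ = κ1 * (dd 0 1 * (dd 0 2 * dd 1 2)) * dG := ⟨_, rfl⟩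
  have hδ0 : δ ≠ 0 := by
    rw [hδ]
    exact mul_ne_zero (mul_ne_zero hκ10 (mul_ne_zero (hdd0 0 1 (by decide))
      (mul_ne_zero (hdd0 0 2 (by decide)) (hdd0 1 2 (by decide))))) hG
  obtain ⟨Bad, hBad⟩ : ∃ Bad, Bad = (finite_mem hδ0).toFinset := ⟨_, rfl⟩
  refine ⟨(∑ l, |CC l|) + 3 * (∑ v ∈ Bad, lN v) / (Module.finrank ℚ K : ℝ),
    fun T s hs hne m hm M hM hx hy => ?_⟩
  obtain ⟨hcop, hy0, hQ0⟩ := hs
  have hz0 : ∀ l, z l s ≠ 0 := by
    intro l h
    have h1 := hzK l s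
    rw [h] at h1
    exact mul_ne_zero (hc l) (hne l) h1.symm
  obtain ⟨V, hV⟩ : ∃ V : Finset (HeightOneSpectrum (𝓞 K)),
    V = (Set.finite_iUnion fun l => finite_mem (hz0 l)).toFinset := ⟨_, rfl⟩
  have hzl : ∀ l, ptI G s 0 * a l 1 - ptI G s 1 * a l 0 = z l s := fun l => by rw [hz]
  have h1 := cnt_le T hc ha (x := pt G s) (X := ptI G s) (fun j => rfl) hne V (by
    rintro v ⟨l, hl⟩
    rw [hV, Set.Finite.mem_toFinset]
    rw [hzl] at hl
    exact Set.mem_iUnion.2 ⟨l, hl⟩)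
  simp only [hzl] at h1
  refine h1.trans ?_
  rw [div_le_iff₀ hd]
  -- the single forms
  have hone : ∀ l, (∑ v ∈ V, if z l s ∈ v.asIdeal then lN v else 0) ≤
      (Module.finrank ℚ K : ℝ) * (Real.log M + CC l) := by
    intro l
    rw [← Finset.sum_filter]
    refine (sum_lN_le (hz0 l) _ fun v hv => (Finset.mem_filter.1 hv).2).trans ?_
    have e : z l s = (G 0 0 * a l 1 - G 1 0 * a l 0) * (s.1 : 𝓞 K) +
      (G 0 1 * a l 1 - G 1 1 * a l 0) * s.2 := by
      rw [hz]
      show ptI G s 0 * a l 1 - ptI G s 1 * a l 0 = _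
      unfold ptI
      ring
    have h2 := hCC l s.1 s.2 M hM hx hy (by rw [← e]; exact hz0 l)
    rw [← e] at h2
    exact h2
  -- the three forms
  have hthree : ∀ v : HeightOneSpectrum (𝓞 K),
      (∑ t : Fin 3, if z (i t) s ∈ v.asIdeal then lN v else 0) ≤
        (if (m : 𝓞 K) ∈ v.asIdeal then lN v else 0) + 3 * (if δ ∈ v.asIdeal then lN v else 0) := by
    intro v
    have hv := (lN_pos v).le
    by_cases hb : δ ∈ v.asIdeal
    · rw [if_pos hb]
      have h2 : ∀ t : Fin 3, (if z (i t) s ∈ v.asIdeal then lN v else 0) ≤ lN v := by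
        intro t
        split_ifs
        · exact le_rfl
        · exact hv
      have h3 : 0 ≤ (if (m : 𝓞 K) ∈ v.asIdeal then lN v else 0) := by
        split_ifs
        · exact hv
        · exact le_rfl
      rw [Fin.sum_univ_three]
      have := h2 0
      have := h2 1
      have := h2 2
      linarith
    · have hvp := v.isPrime
      have b1 : κ1 ∉ v.asIdeal := by
        intro h
        apply hb
        rw [hδ]
        exact Ideal.mul_mem_right _ _ (Ideal.mul_mem_right _ _ h)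
      have b2 : dd 0 1 ∉ v.asIdeal := by
        intro h
        apply hb
        rw [hδ]
        exact Ideal.mul_mem_right _ _ (Ideal.mul_mem_left _ _ (Ideal.mul_mem_right _ _ h))
      have b3 : dd 0 2 ∉ v.asIdeal := by
        intro h
        apply hb
        rw [hδ]
        exact Ideal.mul_mem_right _ _ (Ideal.mul_mem_left _ _
          (Ideal.mul_mem_left _ _ (Ideal.mul_mem_right _ _ h)))
      have b4 : dd 1 2 ∉ v.asIdeal := by
        intro h
        apply hb
        rw [hδ]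
        exact Ideal.mul_mem_right _ _ (Ideal.mul_mem_left _ _
          (Ideal.mul_mem_left _ _ (Ideal.mul_mem_left _ _ h)))
      have b5 : dG ∉ v.asIdeal := by
        intro h
        apply hb
        rw [hδ]
        exact Ideal.mul_mem_left _ _ h
      -- coprimality
      have hcopv : ¬ (ptI G s 0 ∈ v.asIdeal ∧ ptI G s 1 ∈ v.asIdeal) := by
        rintro ⟨h2, h3⟩
        have h4 : dG * (s.1 : 𝓞 K) ∈ v.asIdeal := by
          have e : dG * (s.1 : 𝓞 K) = G 1 1 * ptI G s 0 - G 0 1 * ptI G s 1 := by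
            rw [hdG]
            unfold ptI
            ring
          rw [e]
          exact Ideal.sub_mem _ (Ideal.mul_mem_left _ _ h2) (Ideal.mul_mem_left _ _ h3)
        have h5 : dG * (s.2 : 𝓞 K) ∈ v.asIdeal := by
          have e : dG * (s.2 : 𝓞 K) = G 0 0 * ptI G s 1 - G 1 0 * ptI G s 0 := by
            rw [hdG]
            unfold ptI
            ring
          rw [e]
          exact Ideal.sub_mem _ (Ideal.mul_mem_left _ _ h3) (Ideal.mul_mem_left _ _ h2)
        have h6 := (hvp.mem_or_mem h4).resolve_left b5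
        have h7 := (hvp.mem_or_mem h5).resolve_left b5
        obtain ⟨u, w, huw⟩ := hcop
        apply hvp.ne_top
        rw [Ideal.eq_top_iff_one]
        have e : (1 : 𝓞 K) = (u : 𝓞 K) * s.1 + (w : 𝓞 K) * s.2 := by
          have := congrArg (fun n : ℤ => (n : 𝓞 K)) huw
          push_cast at this
          exact this.symm
        rw [e]
        exact Ideal.add_mem _ (Ideal.mul_mem_left _ _ h6) (Ideal.mul_mem_left _ _ h7)
      have hpair : ∀ t u : Fin 3, dd t u ∉ v.asIdeal →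
          ¬ (z (i t) s ∈ v.asIdeal ∧ z (i u) s ∈ v.asIdeal) := by
        rintro t u hb' ⟨h2, h3⟩
        apply hcopv
        rw [← hzl] at h2 h3
        constructor
        · have h4 : ptI G s 0 * dd t u ∈ v.asIdeal := by
            have e : ptI G s 0 * dd t u = a (i t) 0 * (ptI G s 0 * a (i u) 1 - ptI G s 1 * a (i u) 0) -
                a (i u) 0 * (ptI G s 0 * a (i t) 1 - ptI G s 1 * a (i t) 0) := by
              rw [hdd]
              ring
            rw [e]
            exact Ideal.sub_mem _ (Ideal.mul_mem_left _ _ h3) (Ideal.mul_mem_left _ _ h2)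
          exact (hvp.mem_or_mem h4).resolve_right hb'
        · have h4 : ptI G s 1 * dd t u ∈ v.asIdeal := by
            have e : ptI G s 1 * dd t u = a (i t) 1 * (ptI G s 0 * a (i u) 1 - ptI G s 1 * a (i u) 0) -
                a (i u) 1 * (ptI G s 0 * a (i t) 1 - ptI G s 1 * a (i t) 0) := by
              rw [hdd]
              ring
            rw [e]
            exact Ideal.sub_mem _ (Ideal.mul_mem_left _ _ h3) (Ideal.mul_mem_left _ _ h2)
          exact (hvp.mem_or_mem h4).resolve_right hb'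
      have hany : ∀ t : Fin 3, z (i t) s ∈ v.asIdeal → (m : 𝓞 K) ∈ v.asIdeal := by
        intro t ht
        have h2 : κ1 * ((s.2 * qf A B C s.1 s.2 : ℤ) : 𝓞 K) ∈ v.asIdeal := by
          rw [← hrel s, ← Finset.mul_prod_erase Finset.univ (fun t => z (i t) s) (Finset.mem_univ t)]
          exact Ideal.mul_mem_left _ _ (Ideal.mul_mem_right _ _ ht)
        have h3 := (hvp.mem_or_mem h2).resolve_left b1
        obtain ⟨n, hn⟩ : ∃ n : ℤ, n = s.2 * qf A B C s.1 s.2 := ⟨_, rfl⟩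
        rw [← hn] at h3
        have hn0 : n ≠ 0 := by
          rw [hn]
          exact mul_ne_zero hy0.ne' hQ0
        have h4 : ((n.natAbs : ℕ) : 𝓞 K) ∈ v.asIdeal := by
          rcases Int.natAbs_eq n with h5 | h5
          · have e : ((n.natAbs : ℕ) : 𝓞 K) = (n : 𝓞 K) := by
              conv_rhs => rw [h5]
              simp
            rw [e]
            exact h3
          · have e : ((n.natAbs : ℕ) : 𝓞 K) = -(n : 𝓞 K) := by
              conv_rhs => rw [h5]
              simp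
            rw [e]
            exact Ideal.neg_mem_iff _ |>.2 h3
        obtain ⟨r, hr, hrn, hrv⟩ := exists_prime_mem v n.natAbs (by omega) h4
        obtain ⟨k, hk⟩ := hm.2 r hr (by rw [← hn]; exact Int.natCast_dvd.2 hrn)
        rw [hk, Nat.cast_mul]
        exact Ideal.mul_mem_right _ _ hrv
      have p1 := hpair 0 1 b2
      have p2 := hpair 0 2 b3
      have p3 := hpair 1 2 b4
      have hm0 := hany 0
      have hm1 := hany 1
      have hm2 := hany 2
      rw [if_neg hb, Fin.sum_univ_three]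
      by_cases q0 : z (i 0) s ∈ v.asIdeal
      · have q1 : z (i 1) s ∉ v.asIdeal := fun h => p1 ⟨q0, h⟩
        have q2 : z (i 2) s ∉ v.asIdeal := fun h => p2 ⟨q0, h⟩
        rw [if_pos q0, if_neg q1, if_neg q2, if_pos (hm0 q0)]
        simp
      · by_cases q1 : z (i 1) s ∈ v.asIdeal
        · have q2 : z (i 2) s ∉ v.asIdeal := fun h => p3 ⟨q1, h⟩
          rw [if_neg q0, if_pos q1, if_neg q2, if_pos (hm1 q1)]
          simp
        · by_cases q2 : z (i 2) s ∈ v.asIdeal
          · rw [if_neg q0, if_neg q1, if_pos q2, if_pos (hm2 q2)]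
            simp
          · rw [if_neg q0, if_neg q1, if_neg q2]
            have h3 : 0 ≤ (if (m : 𝓞 K) ∈ v.asIdeal then lN v else 0) := by
              split_ifs
              · exact hv
              · exact le_rfl
            linarith
  -- the sum
  obtain ⟨f, hf⟩ : ∃ f : Fin q → ℝ, f = fun l => ∑ v ∈ V, if z l s ∈ v.asIdeal then lN v else 0 :=
    ⟨_, rfl⟩
  have hfl : ∀ l, f l ≤ (Module.finrank ℚ K : ℝ) * (Real.log M + CC l) := fun l => by
    rw [hf]
    exact hone l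
  have hsplit : ∑ l, f l = ∑ t : Fin 3, f (i t) + ∑ l ∈ univ \ univ.image i, f l := by
    rw [← Finset.sum_sdiff (Finset.subset_univ (univ.image i)),
      Finset.sum_image (fun x _ y _ h => hi h)]
    ring
  have hcard : (((univ : Finset (Fin q)) \ univ.image i).card : ℝ) = (q : ℝ) - 3 := by
    rw [Finset.card_sdiff_of_subset (Finset.subset_univ _), Finset.card_image_of_injective _ hi,
      Finset.card_univ, Finset.card_univ, Fintype.card_fin, Fintype.card_fin, Nat.cast_sub]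
    · norm_num
    · have := Fintype.card_le_of_injective i hi
      rw [Fintype.card_fin, Fintype.card_fin] at this
      exact this
  have hrest : ∑ l ∈ univ \ univ.image i, f l ≤
      (Module.finrank ℚ K : ℝ) * (((q : ℝ) - 3) * Real.log M + ∑ l, |CC l|) := by
    calc ∑ l ∈ univ \ univ.image i, f l
        ≤ ∑ l ∈ univ \ univ.image i, (Module.finrank ℚ K : ℝ) * (Real.log M + |CC l|) := by
          refine Finset.sum_le_sum fun l _ => (hfl l).trans ?_
          exact mul_le_mul_of_nonneg_left (by linarith [le_abs_self (CC l)]) hd.le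
      _ = (Module.finrank ℚ K : ℝ) * (((q : ℝ) - 3) * Real.log M +
            ∑ l ∈ univ \ univ.image i, |CC l|) := by
          rw [← Finset.mul_sum, Finset.sum_add_distrib, Finset.sum_const, nsmul_eq_mul, hcard]
      _ ≤ _ := by
          refine mul_le_mul_of_nonneg_left ?_ hd.le
          have := Finset.sum_le_sum_of_subset_of_nonneg
            (Finset.sdiff_subset (s := (univ : Finset (Fin q))) (t := univ.image i))
            (f := fun l => |CC l|) (fun l _ _ => abs_nonneg _)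
          linarith
  have htri : ∑ t : Fin 3, f (i t) ≤
      (Module.finrank ℚ K : ℝ) * Real.log m + 3 * ∑ v ∈ Bad, lN v := by
    have e : ∑ t : Fin 3, f (i t) =
        ∑ v ∈ V, ∑ t : Fin 3, if z (i t) s ∈ v.asIdeal then lN v else 0 := by
      rw [hf]
      exact Finset.sum_comm
    rw [e]
    calc _ ≤ ∑ v ∈ V, ((if (m : 𝓞 K) ∈ v.asIdeal then lN v else 0) +
          3 * (if δ ∈ v.asIdeal then lN v else 0)) := Finset.sum_le_sum fun v _ => hthree v
      _ = ∑ v ∈ V.filter (fun v => (m : 𝓞 K) ∈ v.asIdeal), lN v +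
          3 * ∑ v ∈ V.filter (fun v => δ ∈ v.asIdeal), lN v := by
          rw [Finset.sum_add_distrib, ← Finset.mul_sum, Finset.sum_filter, Finset.sum_filter]
      _ ≤ _ := by
          refine add_le_add (sum_lN_nat hm.1 _ fun v hv => (Finset.mem_filter.1 hv).2) ?_
          refine mul_le_mul_of_nonneg_left ?_ (by norm_num)
          refine Finset.sum_le_sum_of_subset_of_nonneg ?_ fun v _ _ => (lN_pos v).le
          intro v hv
          rw [hBad, Set.Finite.mem_toFinset]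
          exact (Finset.mem_filter.1 hv).2
  have hfin : ∑ l, f l ≤ (Module.finrank ℚ K : ℝ) * Real.log m + 3 * ∑ v ∈ Bad, lN v +
      (Module.finrank ℚ K : ℝ) * (((q : ℝ) - 3) * Real.log M + ∑ l, |CC l|) := by
    rw [hsplit]
    exact add_le_add htri hrest
  have e : (∑ l, ∑ v ∈ V, if z l s ∈ v.asIdeal then lN v else 0) = ∑ l, f l := by rw [hf]
  rw [e]
  refine hfin.trans (le_of_eq ?_)
  have : 3 * (∑ v ∈ Bad, lN v) / (Module.finrank ℚ K : ℝ) * (Module.finrank ℚ K : ℝ) =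
      3 * ∑ v ∈ Bad, lN v := by field_simp
  rw [add_mul, add_mul, add_mul, this]
  ring

end Pool.Agent.H38.ST
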