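import Pool.Agent.H38.ST.N3

/-!
# Heights
-/

set_option autoImplicit false

namespace Pool.Agent.H38.ST

open NumberField IsDedekindDomain Finset

variable {K : Type} [Field K] [NumberField K]

theorem iSup_two (f : Fin 2 → ℝ) : ⨆ i, f i = max (f 0) (f 1) := by
  refine le_antisymm (ciSup_le fun i => ?_) (max_le ?_ ?_)
  · fin_cases i
    · exact le_max_left _ _
    · exact le_max_right _ _
  · exact le_ciSup (Finite.bddAbove_range f) 0
  · exact le_ciSup (Finite.bddAbove_range f) 1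

theorem coprime_finite (w : FinitePlace K) {x y : ℤ} (h : IsCoprime x y) :
    max (w ((x : ℤ) : K)) (w ((y : ℤ) : K)) = 1 := by
  rw [← FinitePlace.mk_maximalIdeal w]
  obtain ⟨v, hv⟩ : ∃ v, v = FinitePlace.maximalIdeal w := ⟨_, rfl⟩
  rw [← hv]
  have hx : ((x : ℤ) : K) = (((x : ℤ) : 𝓞 K) : K) := by simp
  have hy : ((y : ℤ) : K) = (((y : ℤ) : 𝓞 K) : K) := by simp
  rw [hx, hy]
  by_cases h1 : ((x : ℤ) : 𝓞 K) ∈ v.asIdeal
  · by_cases h2 : ((y : ℤ) : 𝓞 K) ∈ v.asIdeal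
    · exfalso
      obtain ⟨u, t, hut⟩ := h
      apply v.isPrime.ne_top
      rw [Ideal.eq_top_iff_one]
      have e : (1 : 𝓞 K) = (u : 𝓞 K) * x + (t : 𝓞 K) * y := by
        have := congrArg (fun n : ℤ => (n : 𝓞 K)) hut
        push_cast at this
        exact this.symm
      rw [e]
      exact Ideal.add_mem _ (Ideal.mul_mem_left _ _ h1) (Ideal.mul_mem_left _ _ h2)
    · rw [mk_eq_one h2]
      exact max_eq_right (mk_int_le v _)
  · rw [mk_eq_one h1]
    exact max_eq_left (mk_int_le v _)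

theorem logHeight_int {x y : ℤ} (h : IsCoprime x y) :
    Height.logHeight (fun j : Fin 2 => if j = 0 then ((x : ℤ) : K) else ((y : ℤ) : K)) =
      (Module.finrank ℚ K : ℝ) * Real.log (max |(x : ℝ)| |(y : ℝ)|) := by
  have hne : (fun j : Fin 2 => if j = 0 then ((x : ℤ) : K) else ((y : ℤ) : K)) ≠ 0 := by
    intro h0
    have h1 := congrFun h0 0
    have h2 := congrFun h0 1
    simp only [if_true, Pi.zero_apply] at h1
    rw [if_neg (by decide)] at h2
    have hx : x = 0 := by exact_mod_cast h1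
    have hy : y = 0 := by
      have : ((y : ℤ) : K) = 0 := h2
      exact_mod_cast this
    rw [hx, hy] at h
    obtain ⟨u, t, hut⟩ := h
    simp at hut
  rw [Height.logHeight_eq_log_mulHeight, NumberField.mulHeight_eq hne]
  have e1 : ∀ w : InfinitePlace K, (⨆ i, w ((fun j : Fin 2 => if j = 0 then ((x : ℤ) : K)
      else ((y : ℤ) : K)) i)) = max |(x : ℝ)| |(y : ℝ)| := by
    intro w
    rw [iSup_two]
    have e0 : w ((fun j : Fin 2 => if j = 0 then ((x : ℤ) : K) else ((y : ℤ) : K)) 0) =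
        |(x : ℝ)| := by
      show w ((x : ℤ) : K) = _
      rw [InfinitePlace.map_intCast, Int.norm_eq_abs]
    have e1 : w ((fun j : Fin 2 => if j = 0 then ((x : ℤ) : K) else ((y : ℤ) : K)) 1) =
        |(y : ℝ)| := by
      show w ((y : ℤ) : K) = _
      rw [InfinitePlace.map_intCast, Int.norm_eq_abs]
    rw [e0, e1]
  have e2 : ∀ w : FinitePlace K, (⨆ i, w ((fun j : Fin 2 => if j = 0 then ((x : ℤ) : K)
      else ((y : ℤ) : K)) i)) = 1 := by
    intro w
    rw [iSup_two]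
    exact coprime_finite w h
  simp only [e1, e2]
  rw [finprod_one, mul_one, Finset.prod_pow_eq_pow_sum, InfinitePlace.sum_mult_eq, Real.log_pow]

theorem height_bound (G : Fin 2 → Fin 2 → 𝓞 K) (hG : G 0 0 * G 1 1 - G 0 1 * G 1 0 ≠ 0) :
    ∃ C : ℝ, ∀ s : ℤ × ℤ, IsCoprime s.1 s.2 →
      |Height.logHeight (pt G s : Fin 2 → K) / (Module.finrank ℚ K : ℝ) -
        Real.log (max |(s.1 : ℝ)| |(s.2 : ℝ)|)| ≤ C := by
  have hd : (0 : ℝ) < (Module.finrank ℚ K : ℝ) := finrank_pos'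
  obtain ⟨A1, hA1⟩ : ∃ A1 : Fin 2 × Fin 2 → K, A1 = fun p => (G p.1 p.2 : K) := ⟨_, rfl⟩
  obtain ⟨A2, hA2⟩ : ∃ A2 : Fin 2 × Fin 2 → K, A2 = fun p =>
    if p.1 = 0 then (if p.2 = 0 then (G 1 1 : K) else -(G 0 1 : K))
    else (if p.2 = 0 then -(G 1 0 : K) else (G 0 0 : K)) := ⟨_, rfl⟩
  obtain ⟨C1, hC1⟩ : ∃ C1 : ℝ, C1 = Height.totalWeight K * Real.log (Nat.card (Fin 2)) +
    Height.logHeight A1 := ⟨_, rfl⟩
  obtain ⟨C2, hC2⟩ : ∃ C2 : ℝ, C2 = Height.totalWeight K * Real.log (Nat.card (Fin 2)) +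
    Height.logHeight A2 := ⟨_, rfl⟩
  refine ⟨(|C1| + |C2|) / (Module.finrank ℚ K : ℝ), fun s hs => ?_⟩
  obtain ⟨x, hx⟩ : ∃ x : Fin 2 → K, x = fun j : Fin 2 =>
    if j = 0 then ((s.1 : ℤ) : K) else ((s.2 : ℤ) : K) := ⟨_, rfl⟩
  have h0 := logHeight_int (K := K) hs
  rw [← hx] at h0
  have hdet : ((G 0 0 * G 1 1 - G 0 1 * G 1 0 : 𝓞 K) : K) ≠ 0 := fun h =>
    hG (RingOfIntegers.coe_eq_zero_iff.1 h)
  have hdet' : ((G 0 0 * G 1 1 - G 0 1 * G 1 0 : 𝓞 K) : K) =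
      (G 0 0 : K) * (G 1 1 : K) - (G 0 1 : K) * (G 1 0 : K) := by simp
  have hpt : ∀ j, pt G s j = (G j 0 : K) * ((s.1 : ℤ) : K) + (G j 1 : K) * ((s.2 : ℤ) : K) := by
    intro j
    unfold pt ptI
    simp
  have e1 : (fun j => ∑ i, A1 (j, i) * x i) = pt G s := by
    funext j
    rw [Fin.sum_univ_two, hpt, hA1, hx]
    rfl
  have e2 : (fun j => ∑ i, A2 (j, i) * pt G s i) =
      ((G 0 0 * G 1 1 - G 0 1 * G 1 0 : 𝓞 K) : K) • x := by
    funext j
    rw [Fin.sum_univ_two, hpt, hpt, hA2, hx, Pi.smul_apply, smul_eq_mul, hdet']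
    fin_cases j
    · simp
      ring
    · simp
      ring
  have h1 := Height.logHeight_linearMap_apply_le A1 x
  rw [e1, ← hC1] at h1
  have h2 := Height.logHeight_linearMap_apply_le A2 (pt G s : Fin 2 → K)
  rw [e2, ← hC2, Height.logHeight_smul_eq_logHeight _ hdet] at h2
  rw [h0] at h1 h2
  have e3 : Height.logHeight (pt G s : Fin 2 → K) / (Module.finrank ℚ K : ℝ) -
        Real.log (max |(s.1 : ℝ)| |(s.2 : ℝ)|) =
      (Height.logHeight (pt G s : Fin 2 → K) - (Module.finrank ℚ K : ℝ) *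
        Real.log (max |(s.1 : ℝ)| |(s.2 : ℝ)|)) / (Module.finrank ℚ K : ℝ) := by
    field_simp
  rw [e3, abs_div, abs_of_pos hd]
  refine div_le_div_of_nonneg_right ?_ hd.le
  rw [abs_le]
  have := le_abs_self C1
  have := le_abs_self C2
  have := abs_nonneg C1
  have := abs_nonneg C2
  constructor <;> linarith

end Pool.Agent.H38.ST
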