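import Pool.Agent.H38.ST.N4
import Pool.Agent.H38.ST.Mn

/-!
# Many points with a small truncated counting function
-/

set_option autoImplicit false

namespace Pool.Agent.H38.ST

open NumberField IsDedekindDomain Finset Filter Topology

variable {K : Type} [Field K] [NumberField K]

/-- coprime pairs with positive second entry are determined by their ratio -/
theorem eq_of_ratio {s t : ℤ × ℤ} (hs : IsCoprime s.1 s.2) (ht : IsCoprime t.1 t.2)
    (hs2 : 0 < s.2) (ht2 : 0 < t.2) (h : s.1 * t.2 = t.1 * s.2) : s = t := by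
  have h1 : s.2 ∣ t.2 := by
    have : s.2 ∣ s.1 * t.2 := by rw [h]; exact dvd_mul_left _ _
    exact hs.symm.dvd_of_dvd_mul_left this
  have h2 : t.2 ∣ s.2 := by
    have : t.2 ∣ t.1 * s.2 := by rw [← h]; exact dvd_mul_left _ _
    exact ht.symm.dvd_of_dvd_mul_left this
  have h3 : s.2 = t.2 := Int.dvd_antisymm hs2.le ht2.le h1 h2
  have h4 : s.1 = t.1 := by
    rw [h3] at h
    exact mul_right_cancel₀ ht2.ne' h
  exact Prod.ext h4 h3

theorem comb {q : ℕ} (α : Fin q → Fin 2 → K) (i : Fin 3 → Fin q)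
    (hi : Function.Injective i) (hα0 : ∀ l, α l ≠ 0)
    (hα : ∀ t u : Fin 3, t ≠ u → α (i t) 0 * α (i u) 1 - α (i t) 1 * α (i u) 0 ≠ 0)
    (G : Fin 2 → Fin 2 → 𝓞 K) (hG : G 0 0 * G 1 1 - G 0 1 * G 1 0 ≠ 0)
    (A B C : ℤ) (hA : A ≠ 0) (hD : B ^ 2 - 4 * A * C ≠ 0) (κ : K) (hκ : κ ≠ 0)
    (H : ∀ s : ℤ × ℤ, ∏ t : Fin 3, (pt G s 0 * α (i t) 1 - pt G s 1 * α (i t) 0) =
      κ * ((s.2 * qf A B C s.1 s.2 : ℤ) : K)) :
    ∃ c : ℝ, 0 < c ∧ ∀ᶠ L : ℝ in atTop, ∃ S : Finset (ℤ × ℤ),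
      Real.exp (c * (√L / Real.log L)) ≤ S.card ∧
      ∀ s ∈ S, IsCoprime s.1 s.2 ∧ 0 < s.2 ∧
        (∀ l, pt G s 0 * α l 1 - pt G s 1 * α l 0 ≠ 0) ∧
        Height.logHeight (pt G s : Fin 2 → K) / (Module.finrank ℚ K : ℝ) ≤ L ∧
        ∀ T : Set (HeightOneSpectrum (𝓞 K)), cnt T α (pt G s) ≤
          ((q : ℝ) - 2) * (Height.logHeight (pt G s : Fin 2 → K) / (Module.finrank ℚ K : ℝ)) -
            c * (√L / Real.log L) := by
  classical
  obtain ⟨c1, hc1, hmany⟩ := many A B C hA hD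
  obtain ⟨C0, hC0⟩ := field_bound α i hi hα G hG A B C κ hκ H
  obtain ⟨C1, hC1⟩ := height_bound G hG
  have hq3 : (3 : ℝ) ≤ q := by
    have := Fintype.card_le_of_injective i hi
    rw [Fintype.card_fin, Fintype.card_fin] at this
    exact_mod_cast this
  refine ⟨c1 / 2, by positivity, ?_⟩
  have hu1 := (sqrt_div_log_tendsto).eventually_ge_atTop ((((q : ℝ) - 2) * C1 + C0) / (c1 / 2))
  have hu2 := (sqrt_div_log_tendsto).eventually_ge_atTop (Real.log (1 + q) / (c1 / 2))
  filter_upwards [hmany, hu1, hu2, eventually_ge_atTop (4 * C1)] with L hL h1 h2 h3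
  obtain ⟨u, hu⟩ : ∃ u, u = √L / Real.log L := ⟨_, rfl⟩
  rw [← hu] at hL h1 h2 ⊢
  have hc2 : 0 < c1 / 2 := by positivity
  rw [div_le_iff₀ hc2] at h1 h2
  obtain ⟨S0, hS1, hS2⟩ := hL
  obtain ⟨S, hS⟩ : ∃ S, S = S0.filter
    (fun s => ∀ l, (pt G s 0 : K) * α l 1 - pt G s 1 * α l 0 ≠ 0) := ⟨_, rfl⟩
  have hptf : ∀ (s : ℤ × ℤ) (l : Fin q), (pt G s 0 : K) * α l 1 - pt G s 1 * α l 0 =
      ((G 0 0 : K) * α l 1 - (G 1 0 : K) * α l 0) * ((s.1 : ℤ) : K) +
      ((G 0 1 : K) * α l 1 - (G 1 1 : K) * α l 0) * ((s.2 : ℤ) : K) := by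
    intro s l
    unfold pt ptI
    simp
    ring
  have hcard : S0.card ≤ S.card + q := by
    have e : S0.card = S.card + (S0.filter (fun s => ¬ ∀ l, (pt G s 0 : K) * α l 1 -
        pt G s 1 * α l 0 ≠ 0)).card := by
      rw [hS, Finset.card_filter_add_card_filter_not]
    rw [e]
    refine Nat.add_le_add_left ?_ _
    have hsub : (S0.filter (fun s => ¬ ∀ l, (pt G s 0 : K) * α l 1 - pt G s 1 * α l 0 ≠ 0)) ⊆
        (univ : Finset (Fin q)).biUnion (fun l => S0.filter
          (fun s => (pt G s 0 : K) * α l 1 - pt G s 1 * α l 0 = 0)) := by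
      intro s hs
      obtain ⟨h4, h5⟩ := Finset.mem_filter.1 hs
      push Not at h5
      obtain ⟨l, hl⟩ := h5
      exact Finset.mem_biUnion.2 ⟨l, Finset.mem_univ _, Finset.mem_filter.2 ⟨h4, hl⟩⟩
    refine (Finset.card_le_card hsub).trans (Finset.card_biUnion_le.trans ?_)
    calc _ ≤ ∑ _l : Fin q, 1 := by
          refine Finset.sum_le_sum fun l _ => ?_
          rw [Finset.card_le_one]
          intro s hs t ht
          obtain ⟨s1, s2⟩ := Finset.mem_filter.1 hs
          obtain ⟨t1, t2⟩ := Finset.mem_filter.1 ht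
          obtain ⟨⟨s3, s4, s5⟩, -⟩ := hS2 s s1
          obtain ⟨⟨t3, t4, t5⟩, -⟩ := hS2 t t1
          refine eq_of_ratio s3 t3 s4 t4 ?_
          rw [hptf] at s2 t2
          obtain ⟨U, hU⟩ : ∃ U : K, U = (G 0 0 : K) * α l 1 - (G 1 0 : K) * α l 0 := ⟨_, rfl⟩
          obtain ⟨W, hW⟩ : ∃ W : K, W = (G 0 1 : K) * α l 1 - (G 1 1 : K) * α l 0 := ⟨_, rfl⟩
          rw [← hU, ← hW] at s2 t2
          have hdet : (G 0 0 : K) * (G 1 1 : K) - (G 0 1 : K) * (G 1 0 : K) ≠ 0 := by
            intro h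
            apply hG
            apply RingOfIntegers.coe_injective
            show ((G 0 0 * G 1 1 - G 0 1 * G 1 0 : 𝓞 K) : K) = ((0 : 𝓞 K) : K)
            simpa using h
          have hUW : U ≠ 0 ∨ W ≠ 0 := by
            by_contra hcon
            push Not at hcon
            apply hα0 l
            have k1 : ((G 0 0 : K) * (G 1 1 : K) - (G 0 1 : K) * (G 1 0 : K)) * α l 1 = 0 := by
              linear_combination (G 1 1 : K) * (hcon.1.symm.trans hU).symm -
                (G 1 0 : K) * (hcon.2.symm.trans hW).symm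
            have k0 : ((G 0 0 : K) * (G 1 1 : K) - (G 0 1 : K) * (G 1 0 : K)) * α l 0 = 0 := by
              linear_combination (G 0 1 : K) * (hcon.1.symm.trans hU).symm -
                (G 0 0 : K) * (hcon.2.symm.trans hW).symm
            funext j
            fin_cases j
            · exact (mul_eq_zero.1 k0).resolve_left hdet
            · exact (mul_eq_zero.1 k1).resolve_left hdet
          have k : (((s.1 * t.2 - t.1 * s.2 : ℤ)) : K) = 0 := by
            push_cast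
            rcases hUW with h | h
            · apply mul_left_cancel₀ h
              linear_combination ((t.2 : ℤ) : K) * s2 - ((s.2 : ℤ) : K) * t2
            · apply mul_left_cancel₀ h
              linear_combination ((s.1 : ℤ) : K) * t2 - ((t.1 : ℤ) : K) * s2
          have : s.1 * t.2 - t.1 * s.2 = 0 := by exact_mod_cast k
          linarith
      _ = q := by simp
  refine ⟨S, ?_, fun s hs => ?_⟩
  · have h4 : Real.exp (c1 * u) ≤ S.card + q := hS1.trans (by exact_mod_cast hcard)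
    have h5 : (1 : ℝ) + q ≤ Real.exp (c1 / 2 * u) := by
      rw [← Real.log_le_iff_le_exp (by positivity)]
      linarith
    have h6 : Real.exp (c1 * u) = Real.exp (c1 / 2 * u) * Real.exp (c1 / 2 * u) := by
      rw [← Real.exp_add]
      congr 1
      ring
    rw [h6] at h4
    have h7 : 0 < Real.exp (c1 / 2 * u) := Real.exp_pos _
    have h8 : 1 ≤ Real.exp (c1 / 2 * u) := by linarith
    nlinarith
  · rw [hS, Finset.mem_filter] at hs
    obtain ⟨hs1, hs2⟩ := hs
    obtain ⟨hpt, k1, k2, m, hm1, hm2⟩ := hS2 s hs1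
    obtain ⟨g1, g2, g3⟩ := hpt
    have k1' : |(s.1 : ℝ)| ≤ Real.exp (3 / 4 * L) := by
      refine le_trans (le_of_eq ?_) k1
      rw [Nat.cast_natAbs, Int.cast_abs]
    have k2' : |(s.2 : ℝ)| ≤ Real.exp (3 / 4 * L) := by
      refine le_trans (le_of_eq ?_) k2
      rw [Nat.cast_natAbs, Int.cast_abs]
    obtain ⟨M, hM⟩ : ∃ M : ℝ, M = max |(s.1 : ℝ)| |(s.2 : ℝ)| := ⟨_, rfl⟩
    have hs2abs : ((s.2.natAbs : ℕ) : ℝ) = |(s.2 : ℝ)| := by rw [Nat.cast_natAbs, Int.cast_abs]
    have h2ge : (1 : ℝ) ≤ |(s.2 : ℝ)| := by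
      rw [← hs2abs]
      have : 1 ≤ s.2.natAbs := by omega
      exact_mod_cast this
    have hM1 : 1 ≤ M := by rw [hM]; exact h2ge.trans (le_max_right _ _)
    have hMle : M ≤ Real.exp (3 / 4 * L) := by rw [hM]; exact max_le k1' k2'
    have hlogM : Real.log M ≤ 3 / 4 * L := by
      rw [Real.log_le_iff_le_exp (by linarith)]
      exact hMle
    have hh := hC1 s g1
    rw [← hM] at hh
    obtain ⟨h, hhe⟩ : ∃ h : ℝ, h = Height.logHeight (pt G s : Fin 2 → K) /
      (Module.finrank ℚ K : ℝ) := ⟨_, rfl⟩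
    rw [← hhe] at hh ⊢
    rw [abs_le] at hh
    refine ⟨g1, g2, hs2, by linarith, fun T => ?_⟩
    have h4 := hC0 T s ⟨g1, g2, g3⟩ hs2 m hm1 M hM1 (by rw [hM]; exact le_max_left _ _)
      (by rw [hM]; exact le_max_right _ _)
    have h5 : Real.log m ≤ Real.log M - c1 * u := by
      have hm0 : (0 : ℝ) < m := by exact_mod_cast hm1.1
      have h6 : (m : ℝ) ≤ M * Real.exp (-(c1 * u)) := by
        refine hm2.trans ?_
        rw [hs2abs]
        exact mul_le_mul_of_nonneg_right (by rw [hM]; exact le_max_right _ _) (Real.exp_pos _).le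
      have h7 := Real.log_le_log hm0 h6
      rw [Real.log_mul (by linarith) (Real.exp_pos _).ne', Real.log_exp] at h7
      linarith
    have h6 : ((q : ℝ) - 2) * Real.log M ≤ ((q : ℝ) - 2) * (h + C1) :=
      mul_le_mul_of_nonneg_left (by linarith) (by linarith)
    nlinarith

end Pool.Agent.H38.ST
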