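import Pool.Agent.H38.ST.N5

/-!
# Many points: general sets, and sets with a rational zero and a quadratic form
-/

set_option autoImplicit false

namespace Pool.Agent.H38.ST

open NumberField IsDedekindDomain Finset Filter Topology

variable {K : Type} [Field K] [NumberField K]

/-- the conclusion, for points of the form `G (x, y)` -/
def Concl {q : ℕ} (α : Fin q → Fin 2 → K) (G : Fin 2 → Fin 2 → 𝓞 K) : Prop :=
  ∃ c : ℝ, 0 < c ∧ ∀ᶠ L : ℝ in atTop, ∃ S : Finset (Projectivization K (Fin 2 → K)),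
    Real.exp (c * (√L / Real.log L)) ≤ S.card ∧
    ∀ P ∈ S, ∃ (s : ℤ × ℤ) (h : (pt G s : Fin 2 → K) ≠ 0), P = Projectivization.mk K (pt G s) h ∧
      (∀ l, pt G s 0 * α l 1 - pt G s 1 * α l 0 ≠ 0) ∧
      Height.logHeight (pt G s : Fin 2 → K) / (Module.finrank ℚ K : ℝ) ≤ L ∧
      ∀ T : Set (HeightOneSpectrum (𝓞 K)), cnt T α (pt G s) ≤
        ((q : ℝ) - 2) * (Height.logHeight (pt G s : Fin 2 → K) / (Module.finrank ℚ K : ℝ)) -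
          c * (√L / Real.log L)

theorem comb2 {q : ℕ} (α : Fin q → Fin 2 → K) (i : Fin 3 → Fin q)
    (hi : Function.Injective i) (hα0 : ∀ l, α l ≠ 0)
    (hα : ∀ t u : Fin 3, t ≠ u → α (i t) 0 * α (i u) 1 - α (i t) 1 * α (i u) 0 ≠ 0)
    (G : Fin 2 → Fin 2 → 𝓞 K) (hG : G 0 0 * G 1 1 - G 0 1 * G 1 0 ≠ 0)
    (A B C : ℤ) (hA : A ≠ 0) (hD : B ^ 2 - 4 * A * C ≠ 0) (κ : K) (hκ : κ ≠ 0)
    (H : ∀ s : ℤ × ℤ, ∏ t : Fin 3, (pt G s 0 * α (i t) 1 - pt G s 1 * α (i t) 0) =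
      κ * ((s.2 * qf A B C s.1 s.2 : ℤ) : K)) : Concl α G := by
  classical
  obtain ⟨c, hc, hev⟩ := comb α i hi hα0 hα G hG A B C hA hD κ hκ H
  refine ⟨c, hc, ?_⟩
  filter_upwards [hev] with L hL
  obtain ⟨S, hS1, hS2⟩ := hL
  have hne : ∀ s ∈ S, (pt G s : Fin 2 → K) ≠ 0 := by
    intro s hs h
    apply (hS2 s hs).2.2.1 (i 0)
    rw [h]
    simp
  obtain ⟨P0, -⟩ : ∃ P0 : Projectivization K (Fin 2 → K), True :=
    ⟨Projectivization.mk K (fun _ => 1) (fun h => one_ne_zero (congrFun h 0)), trivial⟩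
  obtain ⟨f, hf⟩ : ∃ f : ℤ × ℤ → Projectivization K (Fin 2 → K), ∀ s ∈ S,
      ∃ h : (pt G s : Fin 2 → K) ≠ 0, f s = Projectivization.mk K (pt G s) h := by
    refine ⟨fun s => if h : (pt G s : Fin 2 → K) ≠ 0 then Projectivization.mk K (pt G s) h else P0,
      fun s hs => ⟨hne s hs, ?_⟩⟩
    exact dif_pos (hne s hs)
  have hinj : Set.InjOn f (S : Set (ℤ × ℤ)) := by
    intro s hs t ht h
    obtain ⟨h1, h2⟩ := hf s hs
    obtain ⟨h3, h4⟩ := hf t ht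
    rw [h2, h4, Projectivization.mk_eq_mk_iff'] at h
    obtain ⟨a, ha⟩ := h
    obtain ⟨s1, s2, -⟩ := hS2 s hs
    obtain ⟨t1, t2, -⟩ := hS2 t ht
    refine eq_of_ratio s1 t1 s2 t2 ?_
    have e0 : (pt G s 0 : K) = a * pt G t 0 := by rw [← ha]; rfl
    have e1 : (pt G s 1 : K) = a * pt G t 1 := by rw [← ha]; rfl
    have e : (pt G s 0 : K) * pt G t 1 - pt G s 1 * pt G t 0 = 0 := by
      rw [e0, e1]
      ring
    have e2 : (pt G s 0 : K) * pt G t 1 - pt G s 1 * pt G t 0 =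
        ((G 0 0 : K) * (G 1 1 : K) - (G 0 1 : K) * (G 1 0 : K)) *
          (((s.1 * t.2 - t.1 * s.2 : ℤ)) : K) := by
      unfold pt ptI
      simp
      ring
    have hdet : (G 0 0 : K) * (G 1 1 : K) - (G 0 1 : K) * (G 1 0 : K) ≠ 0 := by
      intro h
      apply hG
      apply RingOfIntegers.coe_injective
      show ((G 0 0 * G 1 1 - G 0 1 * G 1 0 : 𝓞 K) : K) = ((0 : 𝓞 K) : K)
      simpa using h
    rw [e2] at e
    have e3 := (mul_eq_zero.1 e).resolve_left hdet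
    have e4 : s.1 * t.2 - t.1 * s.2 = 0 := by exact_mod_cast e3
    linarith
  refine ⟨S.image f, ?_, fun P hP => ?_⟩
  · rw [Finset.card_image_of_injOn hinj]
    exact hS1
  · obtain ⟨s, hs, rfl⟩ := Finset.mem_image.1 hP
    obtain ⟨h1, h2⟩ := hf s hs
    obtain ⟨-, -, k1, k2, k3⟩ := hS2 s hs
    exact ⟨s, h1, h2, k1, k2, k3⟩

/-- general sets -/
theorem general {q : ℕ} (hq : 3 ≤ q) (α : Fin q → Fin 2 → K)
    (hα : ∀ i j, i ≠ j → α i 0 * α j 1 - α i 1 * α j 0 ≠ 0) :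
    ∃ G : Fin 2 → Fin 2 → 𝓞 K, Concl α G := by
  classical
  obtain ⟨i, hi⟩ : ∃ i : Fin 3 → Fin q, Function.Injective i :=
    ⟨Fin.castLE hq, Fin.castLE_injective hq⟩
  have hα0 : ∀ l, α l ≠ 0 := by
    intro l h
    obtain ⟨j, hj⟩ : ∃ j : Fin q, l ≠ j := by
      by_cases h : l = i 0
      · refine ⟨i 1, ?_⟩
        rw [h]
        intro h'
        have := hi h'
        exact absurd this (by decide)
      · exact ⟨_, h⟩
    apply hα l j hj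
    rw [h]
    simp
  have hαt : ∀ t u : Fin 3, t ≠ u → α (i t) 0 * α (i u) 1 - α (i t) 1 * α (i u) 0 ≠ 0 :=
    fun t u h => hα _ _ fun h' => h (hi h')
  obtain ⟨D01, hD01⟩ : ∃ D : K, D = α (i 0) 0 * α (i 1) 1 - α (i 0) 1 * α (i 1) 0 := ⟨_, rfl⟩
  obtain ⟨D02, hD02⟩ : ∃ D : K, D = α (i 0) 0 * α (i 2) 1 - α (i 0) 1 * α (i 2) 0 := ⟨_, rfl⟩
  obtain ⟨D12, hD12⟩ : ∃ D : K, D = α (i 1) 0 * α (i 2) 1 - α (i 1) 1 * α (i 2) 0 := ⟨_, rfl⟩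
  have n01 : D01 ≠ 0 := by rw [hD01]; exact hαt 0 1 (by decide)
  have n02 : D02 ≠ 0 := by rw [hD02]; exact hαt 0 2 (by decide)
  have n12 : D12 ≠ 0 := by rw [hD12]; exact hαt 1 2 (by decide)
  obtain ⟨g, hg⟩ : ∃ g : Fin 2 × Fin 2 → K, g = fun p =>
    if p.2 = 0 then -D12 * α (i 0) p.1 else D02 * α (i 1) p.1 := ⟨_, rfl⟩
  obtain ⟨c0, hc0⟩ := IsLocalization.exist_integer_multiples_of_finite
    (nonZeroDivisors (𝓞 K)) g
  choose G0 hG0 using hc0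
  obtain ⟨c, hc⟩ : ∃ c : K, c = ((c0 : 𝓞 K) : K) := ⟨_, rfl⟩
  have hcn : c ≠ 0 := by
    rw [hc]
    exact fun h => nonZeroDivisors.coe_ne_zero c0 (RingOfIntegers.coe_eq_zero_iff.1 h)
  obtain ⟨G, hG⟩ : ∃ G : Fin 2 → Fin 2 → 𝓞 K, G = fun j k => G0 (j, k) := ⟨_, rfl⟩
  have hGe : ∀ j k, (G j k : K) = c * g (j, k) := by
    intro j k
    rw [hG, hc]
    show algebraMap (𝓞 K) K (G0 (j, k)) = _
    rw [hG0, Algebra.smul_def]
  have hGe0 : ∀ j, (G j 0 : K) = c * (-D12 * α (i 0) j) := by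
    intro j
    rw [hGe, hg]
    rfl
  have hGe1 : ∀ j, (G j 1 : K) = c * (D02 * α (i 1) j) := by
    intro j
    rw [hGe, hg]
    rfl
  refine ⟨G, comb2 α i hi hα0 hαt G ?_ 1 (-1) 0 one_ne_zero (by norm_num)
    (c ^ 3 * (-D12) * D02 * D01 ^ 2 * D02 * D12) ?_ fun s => ?_⟩
  · intro h
    have h1 : ((G 0 0 * G 1 1 - G 0 1 * G 1 0 : 𝓞 K) : K) = 0 := by rw [h]; simp
    have h2 : ((G 0 0 * G 1 1 - G 0 1 * G 1 0 : 𝓞 K) : K) = -(c ^ 2 * D12 * D02 * D01) := by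
      have : ((G 0 0 * G 1 1 - G 0 1 * G 1 0 : 𝓞 K) : K) =
        (G 0 0 : K) * (G 1 1 : K) - (G 0 1 : K) * (G 1 0 : K) := by simp
      rw [this, hGe0, hGe0, hGe1, hGe1, hD01]
      ring
    rw [h2, neg_eq_zero] at h1
    exact mul_ne_zero (mul_ne_zero (mul_ne_zero (pow_ne_zero _ hcn) n12) n02) n01 h1
  · exact mul_ne_zero (mul_ne_zero (mul_ne_zero (mul_ne_zero (mul_ne_zero (pow_ne_zero _ hcn)
      (neg_ne_zero.2 n12)) n02) (pow_ne_zero _ n01)) n02) n12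
  · have hpt : ∀ j, (pt G s j : K) = c * (-D12 * α (i 0) j) * ((s.1 : ℤ) : K) +
        c * (D02 * α (i 1) j) * ((s.2 : ℤ) : K) := by
      intro j
      rw [← hGe0, ← hGe1]
      unfold pt ptI
      simp
    rw [Fin.prod_univ_three, hpt, hpt]
    have f0 : (c * (-D12 * α (i 0) 0) * ((s.1 : ℤ) : K) + c * (D02 * α (i 1) 0) * ((s.2 : ℤ) : K)) *
        α (i 0) 1 - (c * (-D12 * α (i 0) 1) * ((s.1 : ℤ) : K) +
          c * (D02 * α (i 1) 1) * ((s.2 : ℤ) : K)) * α (i 0) 0 =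
        -(c * D02 * D01 * ((s.2 : ℤ) : K)) := by
      rw [hD01]
      ring
    have f1 : (c * (-D12 * α (i 0) 0) * ((s.1 : ℤ) : K) + c * (D02 * α (i 1) 0) * ((s.2 : ℤ) : K)) *
        α (i 1) 1 - (c * (-D12 * α (i 0) 1) * ((s.1 : ℤ) : K) +
          c * (D02 * α (i 1) 1) * ((s.2 : ℤ) : K)) * α (i 1) 0 =
        -(c * D12 * D01 * ((s.1 : ℤ) : K)) := by
      rw [hD01]
      ring
    have f2 : (c * (-D12 * α (i 0) 0) * ((s.1 : ℤ) : K) + c * (D02 * α (i 1) 0) * ((s.2 : ℤ) : K)) *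
        α (i 2) 1 - (c * (-D12 * α (i 0) 1) * ((s.1 : ℤ) : K) +
          c * (D02 * α (i 1) 1) * ((s.2 : ℤ) : K)) * α (i 2) 0 =
        c * D12 * D02 * (((s.2 : ℤ) : K) - ((s.1 : ℤ) : K)) := by
      rw [hD02, hD12]
      ring
    rw [f0, f1, f2]
    unfold qf
    push_cast
    ring

/-- three of the points are the zeros of an integral linear form and an integral quadratic form -/
theorem rational {q : ℕ} (α : Fin q → Fin 2 → K)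
    (hα : ∀ i j, i ≠ j → α i 0 * α j 1 - α i 1 * α j 0 ≠ 0)
    (i : Fin 3 → Fin q) (hi : Function.Injective i)
    (l0 l1 : ℤ) (hl : l0 ≠ 0 ∨ l1 ≠ 0) (Q0 Q1 Q2 : ℤ) (hQ : Q0 ≠ 0 ∨ Q1 ≠ 0 ∨ Q2 ≠ 0)
    (h0 : (l0 : K) * α (i 0) 0 + l1 * α (i 0) 1 = 0)
    (h1 : (Q0 : K) * α (i 1) 0 ^ 2 + Q1 * (α (i 1) 0 * α (i 1) 1) + Q2 * α (i 1) 1 ^ 2 = 0)
    (h2 : (Q0 : K) * α (i 2) 0 ^ 2 + Q1 * (α (i 2) 0 * α (i 2) 1) + Q2 * α (i 2) 1 ^ 2 = 0) :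
    ∃ g : Fin 2 → Fin 2 → ℤ, Concl α (fun j k => ((g j k : ℤ) : 𝓞 K)) := by
  classical
  have hα0 : ∀ l, α l ≠ 0 := by
    intro l h
    obtain ⟨j, hj⟩ : ∃ j : Fin q, l ≠ j := by
      by_cases h : l = i 0
      · refine ⟨i 1, ?_⟩
        rw [h]
        intro h'
        have := hi h'
        exact absurd this (by decide)
      · exact ⟨_, h⟩
    apply hα l j hj
    rw [h]
    simp
  have hαt : ∀ t u : Fin 3, t ≠ u → α (i t) 0 * α (i u) 1 - α (i t) 1 * α (i u) 0 ≠ 0 :=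
    fun t u h => hα _ _ fun h' => h (hi h')
  obtain ⟨a0, ha0⟩ : ∃ a : Fin 2 → K, a = α (i 0) := ⟨_, rfl⟩
  obtain ⟨a1, ha1⟩ : ∃ a : Fin 2 → K, a = α (i 1) := ⟨_, rfl⟩
  obtain ⟨a2, ha2⟩ : ∃ a : Fin 2 → K, a = α (i 2) := ⟨_, rfl⟩
  have n01 : a0 0 * a1 1 - a0 1 * a1 0 ≠ 0 := by rw [ha0, ha1]; exact hαt 0 1 (by decide)
  have n02 : a0 0 * a2 1 - a0 1 * a2 0 ≠ 0 := by rw [ha0, ha2]; exact hαt 0 2 (by decide)
  have n12 : a1 0 * a2 1 - a1 1 * a2 0 ≠ 0 := by rw [ha1, ha2]; exact hαt 1 2 (by decide)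
  rw [← ha0] at h0
  rw [← ha1] at h1
  rw [← ha2] at h2
  obtain ⟨D, hD⟩ : ∃ D : K, D = a1 0 * a2 1 - a1 1 * a2 0 := ⟨_, rfl⟩
  rw [← hD] at n12
  -- the polar form
  obtain ⟨P, hP⟩ : ∃ P : K, P = 2 * Q0 * a1 0 * a2 0 + Q1 * (a1 0 * a2 1 + a1 1 * a2 0) +
    2 * Q2 * a1 1 * a2 1 := ⟨_, rfl⟩
  have hfac : ∀ X0 X1 : K, D ^ 2 * ((Q0 : K) * X0 ^ 2 + Q1 * (X0 * X1) + Q2 * X1 ^ 2) =
      -(P * ((X0 * a1 1 - X1 * a1 0) * (X0 * a2 1 - X1 * a2 0))) := by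
    intro X0 X1
    rw [hD, hP]
    linear_combination (-(X0 * a2 1 - X1 * a2 0) ^ 2) * (-h1) + (X0 * a1 1 - X1 * a1 0) ^ 2 * h2
  have hPn : P ≠ 0 := by
    intro hP0
    have k : ∀ X0 X1 : K, (Q0 : K) * X0 ^ 2 + Q1 * (X0 * X1) + Q2 * X1 ^ 2 = 0 := by
      intro X0 X1
      have := hfac X0 X1
      rw [hP0, zero_mul, neg_zero] at this
      exact (mul_eq_zero.1 this).resolve_left (pow_ne_zero _ n12)
    have k1 := k 1 0
    have k2 := k 0 1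
    have k3 := k 1 1
    have e0 : (Q0 : K) = 0 := by linear_combination k1
    have e2 : (Q2 : K) = 0 := by linear_combination k2
    have e1 : (Q1 : K) = 0 := by linear_combination k3 - k1 - k2
    rcases hQ with h | h | h
    · exact h (by exact_mod_cast e0)
    · exact h (by exact_mod_cast e1)
    · exact h (by exact_mod_cast e2)
  have hdisc : ((Q1 ^ 2 - 4 * Q0 * Q2 : ℤ) : K) * D ^ 2 = P ^ 2 := by
    rw [hD, hP]
    push_cast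
    linear_combination (-4 * ((Q0 : K) * a2 0 ^ 2 + Q1 * (a2 0 * a2 1) + Q2 * a2 1 ^ 2)) * h1
  have hdiscZ : Q1 ^ 2 - 4 * Q0 * Q2 ≠ 0 := by
    intro h
    rw [h, Int.cast_zero, zero_mul] at hdisc
    exact pow_ne_zero 2 hPn hdisc.symm
  have hll : l0 ^ 2 + l1 ^ 2 ≠ 0 := by
    rcases hl with h | h
    · have : 0 < l0 ^ 2 := by positivity
      nlinarith [sq_nonneg l1]
    · have : 0 < l1 ^ 2 := by positivity
      nlinarith [sq_nonneg l0]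
  have hllK : ((l0 : K) ^ 2 + (l1 : K) ^ 2) ≠ 0 := by
    have : ((l0 ^ 2 + l1 ^ 2 : ℤ) : K) ≠ 0 := by exact_mod_cast hll
    push_cast at this
    exact this
  -- `a0 = λ (l1, - l0)`
  obtain ⟨lam, hlam0, hlam1⟩ : ∃ lam : K, a0 0 = lam * l1 ∧ a0 1 = -(lam * l0) := by
    refine ⟨(a0 0 * l1 - a0 1 * l0) / ((l0 : K) ^ 2 + (l1 : K) ^ 2), ?_, ?_⟩
    · rw [div_mul_eq_mul_div, eq_div_iff hllK]
      linear_combination (l0 : K) * h0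
    · rw [div_mul_eq_mul_div, ← neg_div, eq_div_iff hllK]
      linear_combination (l1 : K) * h0
  have hlam : lam ≠ 0 := by
    rintro rfl
    apply n01
    rw [hlam0, hlam1]
    ring
  obtain ⟨A, hA⟩ : ∃ A : ℤ, A = Q0 * l1 ^ 2 - Q1 * (l1 * l0) + Q2 * l0 ^ 2 := ⟨_, rfl⟩
  obtain ⟨B, hB⟩ : ∃ B : ℤ, B = 2 * Q0 * l0 * l1 + Q1 * (l1 ^ 2 - l0 ^ 2) - 2 * Q2 * l0 * l1 :=
    ⟨_, rfl⟩
  obtain ⟨C, hC⟩ : ∃ C : ℤ, C = Q0 * l0 ^ 2 + Q1 * (l0 * l1) + Q2 * l1 ^ 2 := ⟨_, rfl⟩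
  have hA0 : A ≠ 0 := by
    intro h
    have hk := hfac (a0 0) (a0 1)
    have hA' : ((Q0 * l1 ^ 2 - Q1 * (l1 * l0) + Q2 * l0 ^ 2 : ℤ) : K) = 0 := by
      rw [← hA, h]; simp
    push_cast at hA'
    have hz : D ^ 2 * ((Q0 : K) * a0 0 ^ 2 + Q1 * (a0 0 * a0 1) + Q2 * a0 1 ^ 2) = 0 := by
      rw [hlam0, hlam1]
      linear_combination D ^ 2 * lam ^ 2 * hA'
    rw [hz] at hk
    have hk2 : P * ((a0 0 * a1 1 - a0 1 * a1 0) * (a0 0 * a2 1 - a0 1 * a2 0)) = 0 := by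
      linear_combination hk
    exact mul_ne_zero hPn (mul_ne_zero n01 n02) hk2
  have hDD : B ^ 2 - 4 * A * C ≠ 0 := by
    have e : B ^ 2 - 4 * A * C = (Q1 ^ 2 - 4 * Q0 * Q2) * (l0 ^ 2 + l1 ^ 2) ^ 2 := by
      rw [hA, hB, hC]
      ring
    rw [e]
    exact mul_ne_zero hdiscZ (pow_ne_zero _ hll)
  obtain ⟨g, hg⟩ : ∃ g : Fin 2 → Fin 2 → ℤ, g = fun j k =>
    if j = 0 then (if k = 0 then l1 else l0) else (if k = 0 then -l0 else l1) := ⟨_, rfl⟩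
  have g00 : g 0 0 = l1 := by rw [hg]; rfl
  have g01 : g 0 1 = l0 := by rw [hg]; rfl
  have g10 : g 1 0 = -l0 := by rw [hg]; rfl
  have g11 : g 1 1 = l1 := by rw [hg]; rfl
  refine ⟨g, comb2 α i hi hα0 hαt _ ?_ A B C hA0 hDD
    (lam * ((l0 : K) ^ 2 + (l1 : K) ^ 2) * (D ^ 2 / P)) ?_ fun s => ?_⟩
  · show ((g 0 0 : ℤ) : 𝓞 K) * ((g 1 1 : ℤ) : 𝓞 K) - ((g 0 1 : ℤ) : 𝓞 K) * ((g 1 0 : ℤ) : 𝓞 K) ≠ 0
    rw [g00, g01, g10, g11]
    intro h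
    apply hll
    have e : ((l0 ^ 2 + l1 ^ 2 : ℤ) : 𝓞 K) = 0 := by
      push_cast
      push_cast at h
      linear_combination h
    exact_mod_cast e
  · exact mul_ne_zero (mul_ne_zero hlam hllK) (div_ne_zero (pow_ne_zero _ n12) hPn)
  · have p0 : (pt (fun j k => ((g j k : ℤ) : 𝓞 K)) s 0 : K) =
        (l1 : K) * ((s.1 : ℤ) : K) + (l0 : K) * ((s.2 : ℤ) : K) := by
      show ((((g 0 0 : ℤ) : 𝓞 K) * s.1 + ((g 0 1 : ℤ) : 𝓞 K) * s.2 : 𝓞 K) : K) = _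
      rw [g00, g01]
      simp
    have p1 : (pt (fun j k => ((g j k : ℤ) : 𝓞 K)) s 1 : K) =
        -(l0 : K) * ((s.1 : ℤ) : K) + (l1 : K) * ((s.2 : ℤ) : K) := by
      show ((((g 1 0 : ℤ) : 𝓞 K) * s.1 + ((g 1 1 : ℤ) : 𝓞 K) * s.2 : 𝓞 K) : K) = _
      rw [g10, g11]
      simp
    rw [Fin.prod_univ_three, p0, p1, ← ha0, ← ha1, ← ha2]
    obtain ⟨x, hx⟩ : ∃ x : K, x = ((s.1 : ℤ) : K) := ⟨_, rfl⟩
    obtain ⟨y, hy⟩ : ∃ y : K, y = ((s.2 : ℤ) : K) := ⟨_, rfl⟩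
    have hk := hfac ((l1 : K) * x + l0 * y) (-(l0 : K) * x + l1 * y)
    have e1 : ((((l1 : K) * x + l0 * y) * a1 1 - (-(l0 : K) * x + l1 * y) * a1 0) *
        (((l1 : K) * x + l0 * y) * a2 1 - (-(l0 : K) * x + l1 * y) * a2 0)) =
        -(D ^ 2 / P) * ((Q0 : K) * ((l1 : K) * x + l0 * y) ^ 2 +
          Q1 * (((l1 : K) * x + l0 * y) * (-(l0 : K) * x + l1 * y)) +
          Q2 * (-(l0 : K) * x + l1 * y) ^ 2) := by
      have : -(D ^ 2 / P) * ((Q0 : K) * ((l1 : K) * x + l0 * y) ^ 2 +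
          Q1 * (((l1 : K) * x + l0 * y) * (-(l0 : K) * x + l1 * y)) +
          Q2 * (-(l0 : K) * x + l1 * y) ^ 2) = -(D ^ 2 * ((Q0 : K) * ((l1 : K) * x + l0 * y) ^ 2 +
          Q1 * (((l1 : K) * x + l0 * y) * (-(l0 : K) * x + l1 * y)) +
          Q2 * (-(l0 : K) * x + l1 * y) ^ 2)) / P := by
        field_simp
      rw [this, hk]
      field_simp
    rw [← hx, ← hy, mul_assoc, e1, hlam0, hlam1]
    unfold qf
    rw [hA, hB, hC]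
    push_cast
    rw [← hx, ← hy]
    ring

end Pool.Agent.H38.ST
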