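import Pool.Agent.H38.ST.Alg

/-!
# The pigeonhole principle of Stewart and Tijdeman on a torus
-/

set_option autoImplicit false

namespace Pool.Agent.H38.ST

open QuadraticAlgebra Finset

variable {a b : ℤ}

theorem im_mul_star (z w : O a b) : (z * star w).im = z.im * w.re - z.re * w.im := by
  rw [im_mul, re_star, im_star]
  ring

theorem isUnit_cast {l k : ℕ} (hl : l.Prime) {n : ℤ} (h : ¬ (l : ℤ) ∣ n) :
    IsUnit ((n : ℤ) : ZMod (l ^ k)) := by
  rw [ZMod.coe_int_isUnit_iff_isCoprime]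
  push_cast
  apply IsCoprime.pow_left
  exact (Prime.coprime_iff_not_dvd (Nat.prime_iff_prime_int.1 hl)).2 h

/-- the class of an element in the projective line modulo `l ^ k` -/
noncomputable def cell (l k : ℕ) (z : O a b) : ZMod (l ^ k) ⊕ ZMod (l ^ k) :=
  open Classical in
  if (l : ℤ) ∣ z.im then Sum.inr ((z.im : ZMod (l ^ k)) * ((z.re : ℤ) : ZMod (l ^ k))⁻¹)
  else Sum.inl ((z.re : ZMod (l ^ k)) * ((z.im : ℤ) : ZMod (l ^ k))⁻¹)

theorem cell_eq {l k : ℕ} (hl : l.Prime) {z w : O a b} (hz : ¬ (l : ℤ) ∣ norm z)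
    (hw : ¬ (l : ℤ) ∣ norm w) (h : cell l k z = cell l k w) :
    ((l : ℤ) ^ k) ∣ (z * star w).im := by
  have key : ((z.re : ZMod (l ^ k)) * (w.im : ZMod (l ^ k))) =
      (w.re : ZMod (l ^ k)) * (z.im : ZMod (l ^ k)) := by
    unfold cell at h
    by_cases h1 : (l : ℤ) ∣ z.im
    · by_cases h2 : (l : ℤ) ∣ w.im
      · rw [if_pos h1, if_pos h2] at h
        have h3 := Sum.inr.inj h
        have hre : ∀ v : O a b, (l : ℤ) ∣ v.im → ¬ (l : ℤ) ∣ norm v → ¬ (l : ℤ) ∣ v.re := by
          intro v hv1 hv2 hv3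
          apply hv2
          rw [norm_def]
          obtain ⟨s, hs⟩ := hv1
          obtain ⟨t, ht⟩ := hv3
          rw [hs, ht]
          exact ⟨t * (l * t) + b * t * (l * s) - a * (l * s) * s, by ring⟩
        have u1 := isUnit_cast (k := k) hl (hre z h1 hz)
        have u2 := isUnit_cast (k := k) hl (hre w h2 hw)
        have m1 := ZMod.mul_inv_of_unit _ u1
        have m2 := ZMod.mul_inv_of_unit _ u2
        calc (z.re : ZMod (l ^ k)) * (w.im : ZMod (l ^ k))
            = z.re * w.re * ((w.im : ZMod (l ^ k)) * ((w.re : ℤ) : ZMod (l ^ k))⁻¹) := by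
              linear_combination (-(z.re : ZMod (l ^ k)) * w.im) * m2
          _ = z.re * w.re * ((z.im : ZMod (l ^ k)) * ((z.re : ℤ) : ZMod (l ^ k))⁻¹) := by rw [h3]
          _ = _ := by linear_combination ((w.re : ZMod (l ^ k)) * z.im) * m1
      · rw [if_pos h1, if_neg h2] at h
        exact absurd h (by simp)
    · by_cases h2 : (l : ℤ) ∣ w.im
      · rw [if_neg h1, if_pos h2] at h
        exact absurd h (by simp)
      · rw [if_neg h1, if_neg h2] at h
        have h3 := Sum.inl.inj h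
        have u1 := isUnit_cast (k := k) hl h1
        have u2 := isUnit_cast (k := k) hl h2
        have m1 := ZMod.mul_inv_of_unit _ u1
        have m2 := ZMod.mul_inv_of_unit _ u2
        calc (z.re : ZMod (l ^ k)) * (w.im : ZMod (l ^ k))
            = z.im * w.im * ((z.re : ZMod (l ^ k)) * ((z.im : ℤ) : ZMod (l ^ k))⁻¹) := by
              linear_combination (-(z.re : ZMod (l ^ k)) * w.im) * m1
          _ = z.im * w.im * ((w.re : ZMod (l ^ k)) * ((w.im : ℤ) : ZMod (l ^ k))⁻¹) := by rw [h3]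
          _ = _ := by linear_combination ((w.re : ZMod (l ^ k)) * z.im) * m2
  rw [im_mul_star]
  have h1 : (((z.im * w.re - z.re * w.im : ℤ)) : ZMod (l ^ k)) = 0 := by
    push_cast
    linear_combination -key
  have h2 := (ZMod.intCast_zmod_eq_zero_iff_dvd _ (l ^ k)).1 h1
  push_cast at h2
  exact h2

/-- the pigeonhole principle -/
theorem core {W E k l m H : ℕ} {P : Finset ℕ} {ξ : ℕ → O a b} (hP : ∀ p ∈ P, Elt W p (ξ p))
    (hl : l.Prime) (hlW : W < l) (hlP : l ∉ P) (hcount : 2 * l ^ k * m < (E + 1) ^ P.card)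
    (hH : ∀ p ∈ P, KK a b * sz (ξ p) ≤ H) (hHK : KK a b ≤ H) :
    ∃ Z : Finset (O a b), m ≤ Z.card ∧
      (∀ z ∈ Z, ((l : ℤ) ^ k) ∣ z.im ∧ z.im ≠ 0 ∧ ¬ (l : ℤ) ∣ norm z ∧ norm z ≠ 0 ∧
        (∀ r : ℕ, r.Prime → (r : ℤ) ∣ norm z → r ∈ P ∨ r ≤ W) ∧
        sz z ≤ H ^ (2 * (E + 1) * P.card + 2)) ∧
      ∀ z ∈ Z, ∀ w ∈ Z, z ≠ w → z.re * w.im ≠ w.re * z.im := by
  classical
  have : NeZero (l ^ k) := ⟨pow_ne_zero _ hl.ne_zero⟩
  have hH1 : 1 ≤ H := le_trans (by have := KK_pos a b; omega) hHK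
  obtain ⟨X, hX⟩ : ∃ X : (P → Fin (E + 1)) → (ℕ → ℕ),
      X = fun e p => if h : p ∈ P then (e ⟨p, h⟩ : ℕ) else 0 := ⟨_, rfl⟩
  have hXle : ∀ e p, X e p ≤ E := by
    intro e p
    rw [hX]
    show (if h : p ∈ P then (e ⟨p, h⟩ : ℕ) else 0) ≤ E
    split_ifs with h
    · have := (e ⟨p, h⟩).2
      omega
    · exact Nat.zero_le _
  have hXinj : ∀ e f, (∀ p ∈ P, X e p = X f p) → e = f := by
    intro e f h
    funext p
    have h1 := h p.1 p.2
    rw [hX] at h1
    simp only [p.2, dif_pos] at h1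
    exact Fin.ext h1
  obtain ⟨Ξ, hΞ⟩ : ∃ Ξ : (P → Fin (E + 1)) → O a b, Ξ = fun e => ∏ p ∈ P, ξ p ^ X e p := ⟨_, rfl⟩
  have hΞe : ∀ e, Ξ e = ∏ p ∈ P, ξ p ^ X e p := fun e => by rw [hΞ]
  have hln : ∀ e, ¬ (l : ℤ) ∣ norm (Ξ e) := by
    intro e h
    rw [hΞe] at h
    rcases dvd_norm_prod hP _ hl h with h1 | h1
    · exact hlP h1
    · omega
  have hcard : (univ : Finset (ZMod (l ^ k) ⊕ ZMod (l ^ k))).card * m <
      (univ : Finset (P → Fin (E + 1))).card := by
    rw [card_univ, card_univ, Fintype.card_sum, ZMod.card, Fintype.card_fun, Fintype.card_fin,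
      Fintype.card_coe]
    calc (l ^ k + l ^ k) * m = 2 * l ^ k * m := by ring
      _ < _ := hcount
  obtain ⟨c, -, hc⟩ := Finset.exists_lt_card_fiber_of_mul_lt_card_of_maps_to
    (s := (univ : Finset (P → Fin (E + 1)))) (t := univ) (f := fun e => cell l k (Ξ e))
    (fun _ _ => mem_univ _) hcard
  obtain ⟨F, hF⟩ : ∃ F, F = {x ∈ (univ : Finset (P → Fin (E + 1))) | cell l k (Ξ x) = c} :=
    ⟨_, rfl⟩
  rw [← hF] at hc
  obtain ⟨e0, he0⟩ : F.Nonempty := card_pos.1 (by omega)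
  have hmemF : ∀ e, e ∈ F ↔ cell l k (Ξ e) = c := by
    intro e
    rw [hF]
    simp
  obtain ⟨Y, hY⟩ : ∃ Y : (P → Fin (E + 1)) → O a b, Y = fun e => Ξ e * star (Ξ e0) := ⟨_, rfl⟩
  have hYe : ∀ e, Y e = Ξ e * star (Ξ e0) := fun e => by rw [hY]
  have hindep : ∀ e f, e ≠ f → (Y e).re * (Y f).im ≠ (Y f).re * (Y e).im := by
    intro e f hef h
    apply hef
    apply hXinj
    intro p hp
    refine indep hP (X e) (X f) ?_ p hp
    rw [← hΞe, ← hΞe]
    have h1 : (Y e * star (Y f)).im = 0 := by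
      rw [im_mul_star]
      linarith
    have h2 : Y e * star (Y f) = ((norm (Ξ e0) : ℤ) : O a b) * (Ξ e * star (Ξ f)) := by
      have h3 : ((norm (Ξ e0) : ℤ) : O a b) = Ξ e0 * star (Ξ e0) := by
        have := algebraMap_norm_eq_mul_star (Ξ e0)
        rw [← this]
        rfl
      rw [h3, hYe, hYe, star_mul, star_star]
      ring
    have h3 := norm_smul _ _ _ h2
    rw [h1] at h3
    rcases mul_eq_zero.1 h3.symm with h4 | h4
    · exfalso
      apply hln e0
      rw [h4]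
      exact dvd_zero _
    · exact h4
  have hYinj : Function.Injective Y := by
    intro e f h
    by_contra hne
    apply hindep e f hne
    rw [h]
  refine ⟨(F.erase e0).image Y, ?_, ?_, ?_⟩
  · rw [card_image_of_injective _ hYinj, card_erase_of_mem he0]
    omega
  · intro z hz
    obtain ⟨e, he, rfl⟩ := mem_image.1 hz
    obtain ⟨hne, heF⟩ := mem_erase.1 he
    refine ⟨?_, ?_, ?_, ?_, ?_, ?_⟩
    · rw [hYe]
      refine cell_eq hl (hln _) (hln _) ?_
      rw [(hmemF _).1 heF, (hmemF _).1 he0]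
    · intro h
      apply hne
      apply hXinj
      intro p hp
      refine indep hP (X e) (X e0) ?_ p hp
      rw [← hΞe, ← hΞe, ← hYe]
      exact h
    · rw [hYe, map_mul, QuadraticAlgebra.norm_star]
      intro h
      rcases (Nat.prime_iff_prime_int.1 hl).dvd_or_dvd h with h1 | h1
      · exact hln _ h1
      · exact hln _ h1
    · rw [hYe, map_mul, QuadraticAlgebra.norm_star]
      intro h
      rcases mul_eq_zero.1 h with h1 | h1
      · exact hln _ (by rw [h1]; exact dvd_zero _)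
      · exact hln _ (by rw [h1]; exact dvd_zero _)
    · intro r hr h
      rw [hYe, map_mul, QuadraticAlgebra.norm_star] at h
      rcases (Nat.prime_iff_prime_int.1 hr).dvd_or_dvd h with h1 | h1
      · rw [hΞe] at h1
        exact dvd_norm_prod hP _ hr h1
      · rw [hΞe] at h1
        exact dvd_norm_prod hP _ hr h1
    · have hs : ∀ e, sz (Ξ e) ≤ H ^ ((E + 1) * P.card) := by
        intro e
        rw [hΞe]
        refine (sz_prod _ _ _).trans ?_
        calc ∏ i ∈ P, (KK a b * (KK a b * sz (ξ i)) ^ X e i) ≤ ∏ _i ∈ P, H ^ (E + 1) := by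
              refine prod_le_prod' fun i hi => ?_
              calc KK a b * (KK a b * sz (ξ i)) ^ X e i ≤ H * H ^ X e i :=
                    Nat.mul_le_mul hHK (Nat.pow_le_pow_left (hH i hi) _)
                _ ≤ H * H ^ E := Nat.mul_le_mul le_rfl (Nat.pow_le_pow_right hH1 (hXle e i))
                _ = _ := by rw [pow_succ]; ring
          _ = _ := by rw [prod_const, ← pow_mul]
      rw [hYe]
      calc sz (Ξ e * star (Ξ e0)) ≤ KK a b * (sz (Ξ e) * sz (star (Ξ e0))) := sz_mul _ _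
        _ ≤ H * (H ^ ((E + 1) * P.card) * (H * H ^ ((E + 1) * P.card))) := by
            refine Nat.mul_le_mul hHK (Nat.mul_le_mul (hs e) ?_)
            exact (sz_star _).trans (Nat.mul_le_mul hHK (hs e0))
        _ = _ := by ring
  · intro z hz w hw hne
    obtain ⟨e, he, rfl⟩ := mem_image.1 hz
    obtain ⟨f, hf, rfl⟩ := mem_image.1 hw
    exact hindep e f fun h => hne (by rw [h])

end Pool.Agent.H38.ST
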