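import Pool.Agent.H38.ST.Pig
import Pool.Agent.H38.ST.El

/-!
# From elements of the order to coprime integers
-/

set_option autoImplicit false

namespace Pool.Agent.H38.ST

open QuadraticAlgebra Finset

/-- the binary quadratic form `A x² + B x y + C y²` -/
def qf (A B C : ℤ) (x y : ℤ) : ℤ := A * x ^ 2 + B * (x * y) + C * y ^ 2

/-- a point given by an element of the order -/
theorem point {A B C : ℤ} (hA : A ≠ 0) {W k l : ℕ} {P : Finset ℕ}
    (hl : l.Prime) (z : O (-(A * C)) B) (h1 : ((l : ℤ) ^ k) ∣ z.im) (h2 : z.im ≠ 0)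
    (h3 : ¬ (l : ℤ) ∣ norm z) (h4 : norm z ≠ 0)
    (h5 : ∀ r : ℕ, r.Prime → (r : ℤ) ∣ norm z → r ∈ P ∨ r ≤ W) (hP : ∀ p ∈ P, 0 < p) :
    ∃ x y : ℤ, IsCoprime x y ∧ 0 < y ∧ qf A B C x y ≠ 0 ∧
      x.natAbs ≤ A.natAbs * sz z ∧ y.natAbs ≤ A.natAbs * sz z ∧ x * (A * z.im) = y * z.re ∧
      ∃ m : ℕ, 0 < m ∧ (∀ r : ℕ, r.Prime → (r : ℤ) ∣ y * qf A B C x y → r ∣ m) ∧
        m * l ^ k ≤ (l * A.natAbs * W.factorial * ∏ p ∈ P, p) * y.natAbs := by
  obtain ⟨v, hv⟩ : ∃ v : ℤ, v = A * z.im := ⟨_, rfl⟩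
  have hv0 : v ≠ 0 := by rw [hv]; exact mul_ne_zero hA h2
  -- sign
  obtain ⟨ε, hε, hεv⟩ : ∃ ε : ℤ, (ε = 1 ∨ ε = -1) ∧ 0 < ε * v := by
    rcases lt_or_gt_of_ne hv0 with h | h
    · exact ⟨-1, Or.inr rfl, by linarith⟩
    · exact ⟨1, Or.inl rfl, by linarith⟩
  have hε2 : ε * ε = 1 := by rcases hε with rfl | rfl <;> norm_num
  obtain ⟨g, hg⟩ : ∃ g : ℕ, g = Int.gcd z.re v := ⟨_, rfl⟩
  have hg0 : 0 < g := by
    rw [hg]
    exact Int.gcd_pos_of_ne_zero_right _ hv0
  have hgZ : (0 : ℤ) < g := by exact_mod_cast hg0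
  obtain ⟨x', hx'⟩ : (g : ℤ) ∣ z.re := by rw [hg]; exact Int.gcd_dvd_left _ _
  obtain ⟨y', hy'⟩ : (g : ℤ) ∣ v := by rw [hg]; exact Int.gcd_dvd_right _ _
  have hcop : IsCoprime x' y' := by
    rw [Int.isCoprime_iff_gcd_eq_one]
    have h6 : Int.gcd (g * x') (g * y') = g := by rw [← hx', ← hy', ← hg]
    rw [Int.gcd_mul_left, Int.natAbs_natCast] at h6
    exact Nat.eq_of_mul_eq_mul_left hg0 (by rw [h6, mul_one])
  have hεu : IsUnit ε := by rcases hε with rfl | rfl <;> simp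
  have hεn : ε.natAbs = 1 := by rcases hε with rfl | rfl <;> rfl
  have hcop2 : IsCoprime (ε * x') (ε * y') :=
    (isCoprime_mul_unit_left_left hεu _ _).2 ((isCoprime_mul_unit_left_right hεu _ _).2 hcop)
  have hypos : 0 < ε * y' := by
    have h6 : 0 < g * (ε * y') := by
      have : (g : ℤ) * (ε * y') = ε * v := by rw [hy']; ring
      rw [this]
      exact hεv
    exact (mul_pos_iff_of_pos_left hgZ).1 h6
  have hQ : (g : ℤ) * g * qf A B C (ε * x') (ε * y') = A * norm z := by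
    have e1 : (g : ℤ) * g * qf A B C (ε * x') (ε * y') =
        ε * ε * (A * (g * x') ^ 2 + B * ((g * x') * (g * y')) + C * (g * y') ^ 2) := by
      unfold qf
      ring
    rw [e1, hε2, ← hx', ← hy', hv, norm_def]
    ring
  have hQ0 : qf A B C (ε * x') (ε * y') ≠ 0 := by
    intro h
    rw [h, mul_zero] at hQ
    exact mul_ne_zero hA h4 hQ.symm
  -- the power of `l`
  have hlk : ((l : ℤ) ^ k) ∣ ε * y' := by
    rcases Nat.eq_zero_or_pos k with hk | hk
    · rw [hk, pow_zero]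
      exact one_dvd _
    · have hlim : (l : ℤ) ∣ z.im := (dvd_pow_self _ hk.ne').trans h1
      have hlg : ¬ (l : ℤ) ∣ g := by
        intro h
        apply h3
        obtain ⟨s, hs⟩ : (l : ℤ) ∣ z.re := h.trans ⟨x', hx'⟩
        obtain ⟨t, ht⟩ := hlim
        rw [norm_def, hs, ht]
        exact ⟨s * (l * s) + B * s * (l * t) - -(A * C) * (l * t) * t, by ring⟩
      have h6 : ((l : ℤ) ^ k) ∣ g * (ε * y') := by
        have e1 : (g : ℤ) * (ε * y') = ε * A * z.im := by
          have : (g : ℤ) * y' = A * z.im := by rw [← hy', hv]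
          linear_combination ε * this
        rw [e1]
        exact h1.mul_left _
      refine IsCoprime.dvd_of_dvd_mul_left ?_ h6
      apply IsCoprime.pow_left
      exact (Prime.coprime_iff_not_dvd (Nat.prime_iff_prime_int.1 hl)).2 hlg
  obtain ⟨y1, hy1⟩ := hlk
  have hy10 : y1 ≠ 0 := by
    rintro rfl
    rw [mul_zero] at hy1
    exact hypos.ne' hy1
  have hre := re_le z
  have him := im_le z
  refine ⟨ε * x', ε * y', hcop2, hypos, hQ0, ?_, ?_, ?_,
    l * y1.natAbs * (A.natAbs * W.factorial * ∏ p ∈ P, p), ?_, ?_, ?_⟩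
  · rw [Int.natAbs_mul, hεn, one_mul]
    have h6 : z.re.natAbs = g * x'.natAbs := by rw [hx', Int.natAbs_mul, Int.natAbs_natCast]
    have h7 : x'.natAbs ≤ z.re.natAbs := by rw [h6]; exact Nat.le_mul_of_pos_left _ hg0
    have h8 : 1 ≤ A.natAbs := Nat.one_le_iff_ne_zero.2 (by omega)
    calc x'.natAbs ≤ 1 * sz z := by omega
      _ ≤ _ := Nat.mul_le_mul h8 le_rfl
  · rw [Int.natAbs_mul, hεn, one_mul]
    have h6 : v.natAbs = g * y'.natAbs := by rw [hy', Int.natAbs_mul, Int.natAbs_natCast]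
    have h7 : y'.natAbs ≤ v.natAbs := by rw [h6]; exact Nat.le_mul_of_pos_left _ hg0
    refine h7.trans ?_
    rw [hv, Int.natAbs_mul]
    exact Nat.mul_le_mul le_rfl him
  · have e1 : z.re = g * x' := hx'
    have e2 : A * z.im = g * y' := by rw [← hv, hy']
    rw [e1, e2]
    ring
  · have h8 : 0 < A.natAbs := Nat.pos_of_ne_zero (by omega)
    have h9 : 0 < y1.natAbs := Nat.pos_of_ne_zero (by omega)
    have h10 : 0 < ∏ p ∈ P, p := prod_pos hP
    have h11 := hl.pos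
    have h12 := W.factorial_pos
    positivity
  · intro r hr hd
    have hrp := Nat.prime_iff_prime_int.1 hr
    rcases hrp.dvd_or_dvd hd with h6 | h6
    · rw [hy1] at h6
      rcases hrp.dvd_or_dvd h6 with h7 | h7
      · have h8 := Int.natCast_dvd_natCast.1 (hrp.dvd_of_dvd_pow h7)
        exact (h8.mul_right _).mul_right _
      · have h8 := Int.natCast_dvd.1 h7
        exact (h8.mul_left _).mul_right _
    · have h7 : (r : ℤ) ∣ A * norm z := by
        rw [← hQ]
        exact h6.mul_left _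
      apply Dvd.dvd.mul_left
      rcases hrp.dvd_or_dvd h7 with h8 | h8
      · exact ((Int.natCast_dvd.1 h8).mul_right _).mul_right _
      · rcases h5 r hr h8 with h9 | h9
        · exact (dvd_prod_of_mem (fun p => p) h9).mul_left _
        · exact (((hr.dvd_factorial).2 h9).mul_left _).mul_right _
  · have h6 : (ε * y').natAbs = l ^ k * y1.natAbs := by
      rw [hy1, Int.natAbs_mul, Int.natAbs_pow, Int.natAbs_natCast]
    rw [h6]
    apply le_of_eq
    ring

end Pool.Agent.H38.ST
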